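import Mathlib

/-! Counting matrices over a finite field. -/

open Matrix

noncomputable section

namespace Pool.Agent.MP_8299d6_al

variable {F : Type} [Field F] [Fintype F] {a b : ℕ}

abbrev Ix (a b : ℕ) : Type := Fin a ⊕ Fin b

omit [Field F] in
lemma card_mat (m n : Type) [Fintype m] [Fintype n] :
    Nat.card (Matrix m n F) = Fintype.card F ^ (Fintype.card m * Fintype.card n) := by
  classical
  rw [Nat.card_eq_fintype_card]
  change Fintype.card (m → n → F) = _
  rw [Fintype.card_fun, Fintype.card_fun, ← pow_mul, mul_comm]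

lemma card_SL_le {ι : Type} [Fintype ι] [DecidableEq ι] (i0 : ι) (T : Set (Matrix ι ι F))
    (hT : ∀ M ∈ T, ∀ c : F, M * diagonal (Function.update 1 i0 c) ∈ T) :
    Nat.card {K : SpecialLinearGroup ι F // K.1 ∈ T} * Fintype.card F ≤ 2 * Nat.card T := by
  classical
  let t : {K : SpecialLinearGroup ι F // K.1 ∈ T} × Fˣ → T :=
    fun x => ⟨x.1.1.1 * diagonal (Function.update 1 i0 (x.2 : F)), hT _ x.1.2 _⟩
  have hd : ∀ c : F, (diagonal (Function.update (1 : ι → F) i0 c)).det = c := fun c => by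
    rw [det_diagonal, Finset.prod_update_of_mem (Finset.mem_univ _)]; simp
  have ht : Function.Injective t := by
    rintro ⟨K, c⟩ ⟨K', c'⟩ e
    have e1 : K.1.1 * diagonal (Function.update 1 i0 (c : F)) =
        K'.1.1 * diagonal (Function.update 1 i0 (c' : F)) := congrArg Subtype.val e
    have e2 := congrArg det e1
    rw [det_mul, det_mul, hd, hd, K.1.2, K'.1.2, one_mul, one_mul] at e2
    have e3 : c = c' := Units.ext e2
    subst e3
    have hu : IsUnit (diagonal (Function.update (1 : ι → F) i0 (c : F))) := by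
      rw [isUnit_iff_isUnit_det, hd]; exact c.isUnit
    have e4 := hu.mul_left_injective e1
    exact Prod.ext (Subtype.ext (Subtype.ext e4)) rfl
  have h1 := Nat.card_le_card_of_injective t ht
  rw [Nat.card_prod, Nat.card_units, Nat.card_eq_fintype_card (α := F)] at h1
  have h2 : 2 ≤ Fintype.card F := Fintype.one_lt_card
  calc _ ≤ Nat.card {K : SpecialLinearGroup ι F // K.1 ∈ T} * (2 * (Fintype.card F - 1)) := by
        gcongr; omega
    _ = 2 * (Nat.card {K : SpecialLinearGroup ι F // K.1 ∈ T} * (Fintype.card F - 1)) := by ring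
    _ ≤ _ := by gcongr

lemma card_SL_univ (ha : 0 < a) :
    Nat.card (SpecialLinearGroup (Ix a b) F) * Fintype.card F ≤
      2 * Fintype.card F ^ ((a + b) ^ 2) := by
  have h := card_SL_le (F := F) (Sum.inl ⟨0, ha⟩ : Ix a b) Set.univ (fun _ _ _ => trivial)
  rw [Nat.card_congr (Equiv.subtypeUnivEquiv fun _ => Set.mem_univ _),
    Nat.card_congr (Equiv.Set.univ _), card_mat] at h
  simpa [sq] using h

/-- block lower triangular matrices of determinant one -/
abbrev Par (a b : ℕ) (F : Type) [Field F] : Type :=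
  {K : SpecialLinearGroup (Ix a b) F // K.1 ∈ {M : Matrix (Ix a b) (Ix a b) F | M.toBlocks₁₂ = 0}}

lemma card_Par (ha : 0 < a) :
    Nat.card (Par a b F) * Fintype.card F ≤ 2 * Fintype.card F ^ (a * a + a * b + b * b) := by
  have h := card_SL_le (F := F) (Sum.inl ⟨0, ha⟩ : Ix a b) {M | M.toBlocks₁₂ = 0} (fun M hM c => by
    ext i j
    have : M (Sum.inl i) (Sum.inr j) = 0 := congrFun (congrFun hM i) j
    simp [toBlocks₁₂, this])
  refine h.trans (Nat.mul_le_mul_left _ ?_)
  let t : {M : Matrix (Ix a b) (Ix a b) F | M.toBlocks₁₂ = 0} →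
      Matrix (Fin a) (Fin a) F × Matrix (Fin b) (Fin a) F × Matrix (Fin b) (Fin b) F :=
    fun M => (M.1.toBlocks₁₁, M.1.toBlocks₂₁, M.1.toBlocks₂₂)
  have ht : Function.Injective t := fun M M' e => by
    simp only [t, Prod.mk.injEq] at e
    refine Subtype.ext ?_
    rw [← fromBlocks_toBlocks M.1, ← fromBlocks_toBlocks M'.1, e.1, e.2.1, e.2.2, M.2, M'.2]
  refine (Nat.card_le_card_of_injective t ht).trans ?_
  rw [Nat.card_prod, Nat.card_prod, card_mat, card_mat, card_mat, ← pow_add, ← pow_add]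
  simp only [Fintype.card_fin]
  rw [mul_comm b a, add_assoc]

/-- block unipotent subgroup -/
def Uni (a b : ℕ) (F : Type) [Field F] : Subgroup (SpecialLinearGroup (Ix a b) F) where
  carrier := {K | ∃ B, K.1 = fromBlocks 1 B 0 1}
  one_mem' := ⟨0, by simp⟩
  mul_mem' := by
    rintro K K' ⟨B, hB⟩ ⟨B', hB'⟩
    refine ⟨B' + B, ?_⟩
    change K.1 * K'.1 = _
    rw [hB, hB', fromBlocks_multiply]; simp
  inv_mem' := by
    rintro K ⟨B, hB⟩
    have : K * ⟨fromBlocks 1 (-B) 0 1, by simp⟩ = 1 := by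
      refine Subtype.ext ?_
      change K.1 * fromBlocks 1 (-B) 0 1 = 1
      rw [hB, fromBlocks_multiply]; simp
    exact ⟨-B, by rw [inv_eq_of_mul_eq_one_right this]⟩

lemma index_Uni (ha : 0 < a) :
    (Uni a b F).index * Fintype.card F ^ (b * a) * Fintype.card F ≤
      2 * Fintype.card F ^ ((a + b) ^ 2) := by
  classical
  refine le_trans ?_ (card_SL_univ ha)
  rw [← (Uni a b F).index_mul_card]
  gcongr
  let t : Matrix (Fin a) (Fin b) F → Uni a b F :=
    fun B => ⟨⟨fromBlocks 1 B 0 1, by simp⟩, B, rfl⟩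
  have ht : Function.Injective t := fun B B' e => by
    have : fromBlocks 1 B 0 1 = fromBlocks 1 B' (0 : Matrix (Fin b) (Fin a) F) 1 :=
      congrArg (fun x : Uni a b F => x.1.1) e
    exact (fromBlocks_inj.1 this).2.1
  have := Nat.card_le_card_of_injective t ht
  rw [card_mat] at this
  simpa [mul_comm] using this

/-- matrices whose upper right block has independent columns -/
def Gen (a b : ℕ) (F : Type) [Field F] : Set (Matrix (Ix a b) (Ix a b) F) :=
  {A | LinearIndependent F fun (k : Fin b) (i : Fin a) => A (Sum.inl i) (Sum.inr k)}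

lemma card_Gen (hab : b ≤ a) :
    Fintype.card F ^ ((a + b) ^ 2) ≤ 2 ^ b * Nat.card (Gen a b F) := by
  classical
  set q := Fintype.card F with hq
  let t : {s : Fin b → (Fin a → F) // LinearIndependent F s} × Matrix (Fin a) (Fin a) F ×
      Matrix (Fin b) (Fin a) F × Matrix (Fin b) (Fin b) F → Gen a b F :=
    fun x => ⟨fromBlocks x.2.1 (Matrix.of fun i k => x.1.1 k i) x.2.2.1 x.2.2.2, x.1.2⟩
  have ht : Function.Injective t := by
    rintro ⟨s, A, B, C⟩ ⟨s', A', B', C'⟩ e
    have e1 := fromBlocks_inj.1 (congrArg Subtype.val e)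
    simp only at e1
    obtain ⟨rfl, e2, rfl, rfl⟩ := e1
    have : s = s' := Subtype.ext (funext fun k => funext fun i => congrFun (congrFun e2 i) k)
    rw [this]
  have h1 := Nat.card_le_card_of_injective t ht
  rw [Nat.card_prod, Nat.card_prod, Nat.card_prod, card_mat, card_mat, card_mat,
    card_linearIndependent (by simpa using hab)] at h1
  simp only [Fintype.card_fin, Module.finrank_fintype_fun_eq_card, ← hq] at h1
  have h2 : 2 ≤ q := Fintype.one_lt_card
  have h3 : (q ^ a) ^ b ≤ 2 ^ b * ∏ i : Fin b, (q ^ a - q ^ (i : ℕ)) := by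
    calc (q ^ a) ^ b = ∏ _i : Fin b, q ^ a := by simp
      _ ≤ ∏ i : Fin b, (2 * (q ^ a - q ^ (i : ℕ))) := by
          refine Finset.prod_le_prod' fun i _ => ?_
          have h4 : q ^ ((i : ℕ) + 1) ≤ q ^ a := Nat.pow_le_pow_right (by omega) (by omega)
          have h5 : q ^ (i : ℕ) * 2 ≤ q ^ ((i : ℕ) + 1) := by rw [pow_succ]; gcongr
          omega
      _ = _ := by rw [Finset.prod_mul_distrib]; simp
  calc q ^ ((a + b) ^ 2) = (q ^ a) ^ b * (q ^ (a * a) * (q ^ (b * a) * q ^ (b * b))) := by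
        rw [← pow_mul, ← pow_add, ← pow_add, ← pow_add]; congr 1; ring
    _ ≤ (2 ^ b * ∏ i : Fin b, (q ^ a - q ^ (i : ℕ))) *
        (q ^ (a * a) * (q ^ (b * a) * q ^ (b * b))) := by gcongr
    _ ≤ _ := by rw [mul_assoc]; gcongr

omit [Fintype F] in
lemma scalar_of_trace {ι : Type} [Fintype ι] [DecidableEq ι] (i0 : ι) (M : Matrix ι ι F)
    (h : ∀ y η : ι → ℤ, η ⬝ᵥ y = 0 →
      (M * vecMulVec (fun i => (y i : F)) (fun i => (η i : F))).trace = 0) :
    ∃ c : F, M = c • (1 : Matrix ι ι F) := by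
  have h' : ∀ y η : ι → ℤ, η ⬝ᵥ y = 0 →
      (fun i => (η i : F)) ⬝ᵥ M *ᵥ (fun i => (y i : F)) = 0 := fun y η e => by
    rw [← h y η e, mul_vecMulVec, trace_vecMulVec, dotProduct_comm]
  have hs : ∀ i : ι, (fun k => ((Pi.single i 1 : ι → ℤ) k : F)) = Pi.single i 1 := fun i => by
    funext k; by_cases hk : k = i
    · subst hk; simp
    · simp [hk]
  have h1 : ∀ i j, i ≠ j → M i j = 0 := fun i j hij => by
    have := h' (Pi.single j 1) (Pi.single i 1) (by simp [hij])
    rw [hs, hs] at this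
    simpa using this
  have h2 : ∀ i, M i i = M i0 i0 := fun i => by
    by_cases hi : i = i0
    · rw [hi]
    · have := h' (Pi.single i 1 + Pi.single i0 1) (Pi.single i 1 - Pi.single i0 1)
        (by simp [hi, Ne.symm hi])
      have e1 : (fun k => ((Pi.single i 1 + Pi.single i0 1 : ι → ℤ) k : F)) =
          Pi.single i 1 + Pi.single i0 1 := by
        rw [← hs, ← hs]; funext k; simp
      have e2 : (fun k => ((Pi.single i 1 - Pi.single i0 1 : ι → ℤ) k : F)) =
          Pi.single i 1 - Pi.single i0 1 := by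
        rw [← hs, ← hs]; funext k; simp
      rw [e1, e2] at this
      simp [mulVec_add, h1 i i0 hi, h1 i0 i (Ne.symm hi)] at this
      exact add_neg_eq_zero.1 this
  refine ⟨M i0 i0, ?_⟩
  ext i j
  by_cases hij : i = j
  · subst hij; simp [h2 i]
  · simp [hij, h1 i j hij]

end Pool.Agent.MP_8299d6_al
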