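import Mathlib

/-! Representation zeta function of a group and its abscissa of convergence. -/

open scoped ENNReal

noncomputable section

namespace Pool.Agent.MP_8299d6_al

/-- irreducible complex representations of `G` on `ℂⁿ` -/
def IrrRep (G : Type) [Group G] (n : ℕ) : Type :=
  {ρ : Representation ℂ G (Fin n → ℂ) // ρ.IsIrreducible}

/-- isomorphism of representations -/
def isoSetoid (G : Type) [Group G] (n : ℕ) : Setoid (IrrRep G n) where
  r ρ σ := Nonempty (ρ.1.Equiv σ.1)
  iseqv := ⟨fun ρ => ⟨Representation.Equiv.refl ρ.1⟩, fun ⟨e⟩ => ⟨e.symm⟩,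
    fun ⟨e⟩ ⟨f⟩ => ⟨e.trans f⟩⟩

/-- `r_n(G)`, the number of isomorphism classes of irreducible complex representations of
dimension `n` -/
def irrCount (G : Type) [Group G] (n : ℕ) : ℕ∞ := ENat.card (Quotient (isoSetoid G n))

/-- the representation zeta function `∑_{n ≥ 1} r_n(G) n^{-s}` at a real point -/
def repZeta (G : Type) [Group G] (s : ℝ) : ℝ≥0∞ :=
  ∑' n : ℕ, (irrCount G (n + 1) : ℝ≥0∞) * ((n + 1 : ℕ) : ℝ≥0∞) ^ (-s)

/-- the abscissa of convergence: the infimum of the real `s` at which the series converges -/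
def abscissa (G : Type) [Group G] : EReal :=
  sInf ((fun s : ℝ => (s : EReal)) '' {s : ℝ | repZeta G s < ⊤})

end Pool.Agent.MP_8299d6_al
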