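import Pool.Agent.MP_8299d6_al.Loc2
import Pool.Agent.MP_d64882_nt.Zeta

/-! The family attached to one prime of a Dedekind domain; primes of degree one. -/

open Matrix

noncomputable section

namespace Pool.Agent.MP_8299d6_al

variable {Γ : Type} [Group Γ] {a b : ℕ} {A k : Type} [CommRing A] [Field k] [Algebra A k]

structure Glob (j : Γ →* Matrix.SpecialLinearGroup (Ix a b) k) (M μ : A) : Prop where
  inj : Function.Injective j
  int : ∀ γ i l, ∃ x : A, algebraMap A k x = algebraMap A k M * (j γ).1 i l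
  tv : ∀ y η : Ix a b → A, η ⬝ᵥ y = 0 →
    ∃ γ, (j γ).1 = 1 + algebraMap A k μ • (vecMulVec y η).map (algebraMap A k)

/-- a homomorphism to `SL` whose values have entries in a subring -/
def toSub (j : Γ →* Matrix.SpecialLinearGroup (Ix a b) k) (R : Subalgebra A k)
    (h : ∀ γ i l, (j γ).1 i l ∈ R) : Γ →* Matrix.SpecialLinearGroup (Ix a b) R where
  toFun γ := ⟨Matrix.of fun i l => ⟨(j γ).1 i l, h γ i l⟩, by
    apply Subtype.val_injective
    have := RingHom.map_det (R.val : R →+* k) (Matrix.of fun i l => (⟨(j γ).1 i l, h γ i l⟩ : R))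
    exact this.trans (j γ).2⟩
  map_one' := by
    refine Subtype.ext (Matrix.ext fun i l => Subtype.ext ?_)
    change (j 1).1 i l = (((1 : Mt a b R) i l : R) : k)
    rw [map_one]
    by_cases e : i = l
    · subst e; simp
    · simp [e]
  map_mul' x y := by
    refine Subtype.ext (Matrix.ext fun i l => Subtype.ext ?_)
    change (j (x * y)).1 i l = ((R.val : R →+* k) (∑ m, _))
    rw [f_mul, Matrix.mul_apply, map_sum]
    rfl

lemma toSub_eq {j : Γ →* Matrix.SpecialLinearGroup (Ix a b) k} {R : Subalgebra A k}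
    {h : ∀ γ i l, (j γ).1 i l ∈ R} {γ : Γ} {X : Mt a b R}
    (e : (j γ).1 = X.map (R.val : R →+* k)) : (toSub j R h γ).1 = X :=
  Matrix.ext fun i l => Subtype.ext (congrFun (congrFun e i) l)

lemma toSub_map (j : Γ →* Matrix.SpecialLinearGroup (Ix a b) k) (R : Subalgebra A k)
    (h : ∀ γ i l, (j γ).1 i l ∈ R) (γ : Γ) :
    (toSub j R h γ).1.map (R.val : R →+* k) = (j γ).1 := rfl

lemma map_one_add {R S : Type} [CommRing R] [CommRing S] (φ : R →+* S) (c : R) (X : Mt a b R) :
    (1 + c • X).map φ = 1 + φ c • X.map φ := by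
  ext i l
  by_cases e : i = l
  · subst e; simp
  · simp [e]

attribute [local instance] Ideal.Quotient.field

theorem prime_family [IsDedekindDomain A] [IsFractionRing A k]
    {j : Γ →* Matrix.SpecialLinearGroup (Ix a b) k} {M μ : A}
    (hj : Glob j M μ) (P : Ideal A) [P.IsMaximal] (hP0 : P ≠ ⊥) [Finite (A ⧸ P)] (hM : M ∉ P)
    (hμ : μ ∉ P) (hb : 0 < b) (hab : b ≤ a) :
    ∃ (S : Type) (_ : Finite S) (n : S → ℕ) (ρ : ∀ s, IrrRep Γ (n s + 1)),
      Nat.card (A ⧸ P) ^ ((a + b) ^ 2) ≤ 2 ^ b * Nat.card S ∧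
      (∀ s, (n s + 1) * Nat.card (A ⧸ P) ≤ 2 * Nat.card (A ⧸ P) ^ ((a + b) ^ 2)) ∧
      (∀ s, Set.encard {s' | Nonempty ((ρ s').1.Equiv (ρ s).1)} ≤
        (2 * Nat.card (A ⧸ P) ^ (a * a + a * b + b * b) : ℕ)) ∧
      (∀ s γ, ∀ x ∈ P ^ 3, ∀ Z : Mt a b A,
        (j γ).1 = 1 + algebraMap A k x • Z.map (algebraMap A k) → (ρ s).1 γ = 1) ∧
      (∀ s, ∃ i l, ∃ c : A, ∀ γ,
        (j γ).1 = 1 + algebraMap A k (μ * c) • single (Sum.inr l) (Sum.inl i) 1 →
          (ρ s).1 γ ≠ 1) := by
  classical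
  have : Fintype (A ⧸ P) := Fintype.ofFinite _
  have hS : P.primeCompl ≤ nonZeroDivisors A := P.primeCompl_le_nonZeroDivisors
  let R : Subalgebra A k := Localization.subalgebra.ofField k P.primeCompl hS
  have : IsLocalization.AtPrime R P := Localization.subalgebra.isLocalization_ofField k _ hS
  have : IsDiscreteValuationRing R :=
    IsLocalization.AtPrime.isDiscreteValuationRing_of_dedekind_domain A hP0 R
  have hM0 : algebraMap A k M ≠ 0 := fun e =>
    hM (by rw [(IsFractionRing.injective A k) (e.trans (map_zero _).symm)]; exact P.zero_mem)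
  have hint : ∀ γ i l, (j γ).1 i l ∈ R := fun γ i l => by
    obtain ⟨x, hx⟩ := hj.int γ i l
    exact ⟨x, M, hM, by rw [hx]; field_simp⟩
  let f := toSub j R hint
  let red : R →+* A ⧸ P := (IsLocalization.AtPrime.equivQuotMaximalIdeal P R).symm.toRingHom.comp
    (Ideal.Quotient.mk _)
  have hred : ∀ x : A, red (algebraMap A R x) = Ideal.Quotient.mk P x := fun x =>
    (IsLocalization.AtPrime.equivQuotMaximalIdeal P R).symm_apply_eq.2 rfl
  have hker : ∀ x : R, red x = 0 ↔ x ∈ IsLocalRing.maximalIdeal R := fun x => by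
    rw [← Ideal.Quotient.eq_zero_iff_mem]
    exact map_eq_zero_iff _ (IsLocalization.AtPrime.equivQuotMaximalIdeal P R).symm.injective
  obtain ⟨ϖ, hϖ⟩ := IsDiscreteValuationRing.exists_irreducible R
  obtain ⟨⟨p0, s0⟩, hp0⟩ := IsLocalization.surj P.primeCompl ϖ
  have hirr : Irreducible (algebraMap A R p0) := by
    rw [← hp0]
    exact (irreducible_mul_isUnit (IsLocalization.map_units R s0)).2 hϖ
  have hmax := (IsDiscreteValuationRing.irreducible_iff_uniformizer _).1 hirr
  set π := algebraMap A R p0 with hπ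
  have hker' : ∀ x : R, red x = 0 ↔ π ∣ x := fun x => by
    rw [hker, hmax, Ideal.mem_span_singleton]
  have hval : ∀ x : A, (R.val : R →+* k) (algebraMap A R x) = algebraMap A k x := fun x => rfl
  have hG : Good f π (algebraMap A R μ) red (algebraMap A R).range := by
    refine ⟨hirr.ne_zero, hker', ⟨p0, rfl⟩, fun t => ?_, ?_, fun y η hy hη h0 => ?_⟩
    · obtain ⟨c, rfl⟩ := Ideal.Quotient.mk_surjective t
      exact ⟨_, ⟨c, rfl⟩, hred c⟩
    · rw [hred]; exact fun e => hμ (Ideal.Quotient.eq_zero_iff_mem.1 e)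
    · choose y' hy' using hy
      choose η' hη' using hη
      obtain ⟨γ, hγ⟩ := hj.tv y' η' (by
        apply IsFractionRing.injective A k
        have := congrArg (R.val : R →+* k) h0
        simp only [dotProduct, map_sum, map_mul, ← hy', ← hη', hval, map_zero] at this ⊢
        exact this)
      refine ⟨γ, toSub_eq ?_⟩
      rw [hγ, map_one_add, hval]
      congr 2
      ext i l
      simp only [map_apply, vecMulVec_apply, map_mul, ← hy', ← hη', hval]
  obtain ⟨n, ρ, h1, h2, h3, h4⟩ := hG.local_main hb hab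
  rw [Nat.card_eq_fintype_card]
  refine ⟨Gen a b (A ⧸ P), inferInstance, n, ρ, card_Gen hab, h1, h2,
    fun s γ x hx Z hZ => h3 s γ ?_, fun s => ?_⟩
  · have e1 : P.map (algebraMap A R) ≤ Ideal.span {π} := by
      rw [Ideal.map_le_iff_le_comap]
      intro z hz
      rw [Ideal.mem_comap, Ideal.mem_span_singleton, ← hker', hred]
      exact Ideal.Quotient.eq_zero_iff_mem.2 hz
    have e2 : algebraMap A R x ∈ Ideal.span {π} ^ 3 := by
      refine Ideal.pow_right_mono e1 3 ?_
      rw [← Ideal.map_pow]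
      exact Ideal.mem_map_of_mem _ hx
    rw [Ideal.span_singleton_pow, Ideal.mem_span_singleton] at e2
    obtain ⟨w, hw⟩ := e2
    refine ⟨w • Z.map (algebraMap A R), toSub_eq ?_⟩
    rw [smul_smul, show π * π * π * w = algebraMap A R x by rw [hw]; ring, map_one_add, hZ, hval,
      Matrix.map_map]
    rfl
  · obtain ⟨i, l, _, ⟨c, rfl⟩, hc⟩ := h4 s
    refine ⟨i, l, c, fun γ hγ => hc γ (toSub_eq ?_)⟩
    rw [hγ, map_one_add, ← map_mul (algebraMap A R), hval, Matrix.map_single _ _ _ (R.val : R →+* k),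
      map_one]

open NumberField Ideal Filter Topology in
lemma not_summable_primes (k : Type) [Field k] [NumberField k] {x : 𝓞 k} (hx : x ≠ 0) :
    ¬ Summable fun P : {P : Ideal (𝓞 k) // (absNorm P).Prime ∧ x ∉ P} => (absNorm P.1 : ℝ)⁻¹ := by
  classical
  intro h
  have h1 : Summable (Set.indicator {P : Ideal (𝓞 k) | (absNorm P).Prime ∧ x ∉ P}
      fun P => (absNorm P : ℝ)⁻¹) := summable_subtype_iff_indicator.1 h
  have hfin : {P : Ideal (𝓞 k) | x ∈ P}.Finite := by
    refine (finite_setOfPred_absNorm_le (absNorm (span {x}))).subset fun P hP => ?_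
    refine Nat.le_of_dvd (Nat.pos_of_ne_zero ?_)
      (absNorm_dvd_absNorm_of_le ((span_singleton_le_iff_mem _).2 hP))
    rw [Ne, absNorm_eq_zero_iff, span_singleton_eq_bot]
    exact hx
  have h2 : Summable (Set.indicator {P : Ideal (𝓞 k) | x ∈ P} fun P => (absNorm P : ℝ)⁻¹) :=
    summable_subtype_iff_indicator.1 (hfin.summable _)
  set B := ∑' P, (Set.indicator {P : Ideal (𝓞 k) | (absNorm P).Prime ∧ x ∉ P}
      (fun P => (absNorm P : ℝ)⁻¹) P +
    Set.indicator {P : Ideal (𝓞 k) | x ∈ P} (fun P => (absNorm P : ℝ)⁻¹) P) with hB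
  have h3 : ∀ s : ℝ, 1 < s → MP_d64882_nt.D k s ≤ B := fun s hs => by
    refine hasSum_le (fun P => ?_) (MP_d64882_nt.hasSum_D k s hs) (h1.add h2).hasSum
    have h0 : (0 : ℝ) ≤ (absNorm P : ℝ)⁻¹ := by positivity
    split_ifs with hp
    · have h4 : MP_d64882_nt.w k s P ≤ (absNorm P : ℝ)⁻¹ := by
        rw [← Real.rpow_neg_one]
        exact Real.rpow_le_rpow_of_exponent_le (by exact_mod_cast hp.one_le) (by linarith)
      by_cases hxP : x ∈ P
      · simp [Set.indicator, hxP, h4]
      · simp [Set.indicator, hxP, hp, h4]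
    · exact add_nonneg (Set.indicator_nonneg (fun _ _ => by positivity) _)
        (Set.indicator_nonneg (fun _ _ => by positivity) _)
  obtain ⟨C, hC⟩ := (MP_d64882_nt.D_asymp k).bound
  have h5 : Tendsto (fun s : ℝ => Real.log (s - 1)) (𝓝[>] 1) atBot := by
    refine Real.tendsto_log_nhdsGT_zero.comp ?_
    refine tendsto_nhdsWithin_iff.2 ⟨?_, ?_⟩
    · have : Tendsto (fun s : ℝ => s - 1) (𝓝 1) (𝓝 (1 - 1)) := tendsto_id.sub_const 1
      rw [sub_self] at this
      exact this.mono_left nhdsWithin_le_nhds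
    · filter_upwards [self_mem_nhdsWithin] with s hs
      exact sub_pos.2 (Set.mem_Ioi.1 hs)
  obtain ⟨s, ⟨hs1, hs2⟩, hs3⟩ := ((hC.and (h5.eventually_lt_atBot (-C - B))).and
    (self_mem_nhdsWithin (a := (1 : ℝ)) (s := Set.Ioi 1))).exists
  have h6 := h3 s hs3
  rw [Real.norm_eq_abs, norm_one, mul_one, abs_le] at hs1
  linarith [hs1.1]

end Pool.Agent.MP_8299d6_al
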