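import Pool.Agent.MP_8299d6_al.Rep
import Pool.Agent.MP_8299d6_al.Cnt

/-! The local family: characters of the first congruence subgroup of a neighbouring vertex. -/

open Matrix

noncomputable section

namespace Pool.Agent.MP_8299d6_al

variable {Γ : Type} [Group Γ] {a b : ℕ} {R F : Type} [CommRing R] [Field F]

abbrev Mt (a b : ℕ) (R : Type) : Type := Matrix (Ix a b) (Ix a b) R

structure Good (f : Γ →* Matrix.SpecialLinearGroup (Ix a b) R) (π μ : R) (red : R →+* F)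
    (O : Subring R) : Prop where
  ne : π ≠ 0
  ker : ∀ x, red x = 0 ↔ π ∣ x
  pi_mem : π ∈ O
  surj : ∀ t, ∃ c ∈ O, red c = t
  mu : red μ ≠ 0
  tv : ∀ y η : Ix a b → R, (∀ i, y i ∈ O) → (∀ i, η i ∈ O) → η ⬝ᵥ y = 0 →
    ∃ γ, (f γ).1 = 1 + μ • vecMulVec y η

def dv (a b : ℕ) (x y : R) : Ix a b → R := Sum.elim (fun _ => x) (fun _ => y)
def Dm (a b : ℕ) (x y : R) : Mt a b R := diagonal (dv a b x y)

lemma Dm_mul (x y x' y' : R) : Dm a b x y * Dm a b x' y' = Dm a b (x * x') (y * y') := by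
  unfold Dm
  rw [diagonal_mul_diagonal]
  congr 1
  funext i; cases i <;> rfl

lemma Dm_self (x : R) : Dm a b x x = x • (1 : Mt a b R) := by
  unfold Dm
  rw [smul_one_eq_diagonal]
  congr 1
  funext i; cases i <;> rfl

lemma Dm_map (red : R →+* F) (x y : R) : (Dm a b x y).map red = Dm a b (red x) (red y) := by
  unfold Dm
  rw [diagonal_map (map_zero red)]
  congr 1
  funext i; cases i <;> rfl

lemma D_D' (π : R) : Dm a b 1 π * Dm a b π 1 = π • (1 : Mt a b R) := by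
  rw [Dm_mul, one_mul, mul_one, Dm_self]
lemma D'_D (π : R) : Dm a b π 1 * Dm a b 1 π = π • (1 : Mt a b R) := by
  rw [Dm_mul, one_mul, mul_one, Dm_self]

variable [IsDomain R]

lemma smul_cancel {π : R} (h : π ≠ 0) {X Y : Mt a b R} (e : π • X = π • Y) : X = Y := by
  ext i j
  exact mul_left_cancel₀ h (congrFun (congrFun e i) j)

lemma D_cancel {π : R} (h : π ≠ 0) {X Y : Mt a b R} (e : Dm a b 1 π * X = Dm a b 1 π * Y) :
    X = Y := by
  have := congrArg (fun Z => Dm a b π 1 * Z) e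
  simp only [← mul_assoc, D'_D, smul_mul_assoc, one_mul] at this
  exact smul_cancel h this

lemma det_of_conj {π : R} (h : π ≠ 0) {X Y : Mt a b R} (hX : X.det = 1)
    (e : X * Dm a b 1 π = Dm a b 1 π * Y) : Y.det = 1 := by
  have h1 := congrArg det e
  rw [det_mul, det_mul, hX, one_mul] at h1
  have h2 : (Dm a b 1 π).det ≠ 0 := by
    unfold Dm
    rw [det_diagonal]
    refine Finset.prod_ne_zero_iff.2 fun i _ => ?_
    cases i
    · exact one_ne_zero
    · exact h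
  exact (mul_left_cancel₀ h2 (h1.symm.trans (mul_one _).symm))

variable (f : Γ →* Matrix.SpecialLinearGroup (Ix a b) R)

omit [IsDomain R] in
lemma f_mul (x y : Γ) : (f (x * y)).1 = (f x).1 * (f y).1 := by rw [map_mul]; rfl
omit [IsDomain R] in
lemma f_inv_mul (x : Γ) : (f x⁻¹).1 * (f x).1 = 1 := by
  rw [← f_mul, inv_mul_cancel, map_one]; rfl
omit [IsDomain R] in
lemma f_mul_inv (x : Γ) : (f x).1 * (f x⁻¹).1 = 1 := by
  rw [← f_mul, mul_inv_cancel, map_one]; rfl

lemma conj_inv {π : R} (h : π ≠ 0) {x : Γ} {Y : Mt a b R}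
    (e : (f x).1 * Dm a b 1 π = Dm a b 1 π * Y) :
    Y * Y.adjugate = 1 ∧ Y.adjugate * Y = 1 ∧ (f x⁻¹).1 * Dm a b 1 π = Dm a b 1 π * Y.adjugate := by
  have h1 := det_of_conj h (f x).2 e
  have h2 : Y * Y.adjugate = 1 := by rw [mul_adjugate, h1, one_smul]
  refine ⟨h2, by rw [adjugate_mul, h1, one_smul], ?_⟩
  calc (f x⁻¹).1 * Dm a b 1 π = (f x⁻¹).1 * (Dm a b 1 π * Y) * Y.adjugate := by
        rw [mul_assoc, mul_assoc, h2, mul_one]
    _ = _ := by rw [← e, ← mul_assoc, f_inv_mul, one_mul]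

/-- congruence subgroup of level `ϖ` of the vertex `D` -/
def Hk {π : R} (h : π ≠ 0) (ϖ : R) : Subgroup Γ where
  carrier := {γ | ∃ φ : Mt a b R, (f γ).1 * Dm a b 1 π = Dm a b 1 π * (1 + ϖ • φ)}
  one_mem' := ⟨0, by simp⟩
  mul_mem' := by
    rintro x y ⟨φ, hφ⟩ ⟨φ', hφ'⟩
    refine ⟨φ + φ' + ϖ • (φ * φ'), ?_⟩
    rw [f_mul, mul_assoc, hφ', ← mul_assoc, hφ, mul_assoc]
    congr 1
    simp only [mul_add, add_mul, one_mul, mul_one, smul_add, smul_mul_assoc, mul_smul_comm]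
    abel
  inv_mem' := by
    rintro x ⟨φ, hφ⟩
    obtain ⟨h1, -, h3⟩ := conj_inv f h hφ
    refine ⟨-(φ * (1 + ϖ • φ).adjugate), ?_⟩
    rw [h3]
    congr 1
    rw [add_mul, one_mul, smul_mul_assoc] at h1
    rw [smul_neg, ← sub_eq_add_neg]
    exact eq_sub_of_add_eq h1

open Classical in
def phi (π : R) (red : R →+* F) (γ : Γ) : Mt a b F :=
  if h : ∃ φ : Mt a b R, (f γ).1 * Dm a b 1 π = Dm a b 1 π * (1 + π • φ) then h.choose.map red
  else 0

lemma phi_eq {π : R} (h : π ≠ 0) (red : R →+* F) {γ : Γ} {φ : Mt a b R}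
    (e : (f γ).1 * Dm a b 1 π = Dm a b 1 π * (1 + π • φ)) : phi f π red γ = φ.map red := by
  have h1 : ∃ φ : Mt a b R, (f γ).1 * Dm a b 1 π = Dm a b 1 π * (1 + π • φ) := ⟨φ, e⟩
  rw [phi, dif_pos h1]
  have h2 := D_cancel h (h1.choose_spec.symm.trans e)
  rw [smul_cancel h (add_left_cancel h2)]

def chi (π : R) (red : R →+* F) (ψ : AddChar F ℂ) (A : Mt a b F) (γ : Γ) : ℂ :=
  ψ (A * phi f π red γ).trace

variable {f} {π μ : R} {red : R →+* F} {O : Subring R}

omit [IsDomain R] in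
lemma Good.red_pi (hG : Good f π μ red O) : red π = 0 := (hG.ker π).2 dvd_rfl

omit [IsDomain R] in
lemma Good.map_pi (hG : Good f π μ red O) (X : Mt a b R) : (π • X).map red = 0 := by
  ext i j; simp [hG.red_pi]

lemma Good.phi_mul (hG : Good f π μ red O) {x y : Γ} (hx : x ∈ Hk f hG.ne π)
    (hy : y ∈ Hk f hG.ne π) : phi f π red (x * y) = phi f π red x + phi f π red y := by
  obtain ⟨φ, hφ⟩ := hx
  obtain ⟨φ', hφ'⟩ := hy
  have : (f (x * y)).1 * Dm a b 1 π = Dm a b 1 π * (1 + π • (φ + φ' + π • (φ * φ'))) := by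
    rw [f_mul, mul_assoc, hφ', ← mul_assoc, hφ, mul_assoc]
    congr 1
    simp only [mul_add, add_mul, one_mul, mul_one, smul_add, smul_mul_assoc, mul_smul_comm]
    abel
  rw [phi_eq f hG.ne red this, phi_eq f hG.ne red hφ, phi_eq f hG.ne red hφ',
    Matrix.map_add _ (map_add red), Matrix.map_add _ (map_add red), hG.map_pi, add_zero]

lemma Good.N_le (hG : Good f π μ red O) : Hk f hG.ne (π * π) ≤ Hk f hG.ne π := by
  rintro x ⟨φ, hφ⟩
  exact ⟨π • φ, by rw [hφ, smul_smul]⟩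

lemma Good.phi_N (hG : Good f π μ red O) {x : Γ} (hx : x ∈ Hk f hG.ne (π * π)) :
    phi f π red x = 0 := by
  obtain ⟨φ, hφ⟩ := hx
  rw [← smul_smul] at hφ
  rw [phi_eq f hG.ne red hφ, hG.map_pi]

omit [IsDomain R] in
lemma Good.exists_div (hG : Good f π μ red O) {m n : Type} {X : Matrix m n R}
    (h : X.map red = 0) : ∃ Y : Matrix m n R, X = π • Y := by
  have : ∀ i j, ∃ y, X i j = π * y := fun i j => (hG.ker _).1 (congrFun (congrFun h i) j)
  choose Y hY using this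
  exact ⟨Matrix.of Y, by ext i j; exact hY i j⟩

lemma Good.mem_N (hG : Good f π μ red O) {x : Γ} (hx : x ∈ Hk f hG.ne π)
    (h0 : phi f π red x = 0) : x ∈ Hk f hG.ne (π * π) := by
  obtain ⟨φ, hφ⟩ := hx
  rw [phi_eq f hG.ne red hφ] at h0
  obtain ⟨Y, rfl⟩ := hG.exists_div h0
  exact ⟨Y, by rw [hφ, smul_smul]⟩

lemma Good.isChar (hG : Good f π μ red O) (ψ : AddChar F ℂ) (A : Mt a b F) :
    IsChar (Hk f hG.ne π) (Hk f hG.ne (π * π)) (chi f π red ψ A) where
  le := hG.N_le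
  mul x hx y hy := by
    unfold chi
    rw [hG.phi_mul hx hy, mul_add, trace_add, AddChar.map_add_eq_mul]
  one x hx := by
    unfold chi
    rw [hG.phi_N hx, mul_zero, trace_zero, AddChar.map_zero_eq_one]

omit [IsDomain R] in
lemma sq_conj {γ : Γ} {Z : Mt a b R} (e : (f γ).1 = 1 + (π * π) • Z) :
    (f γ).1 * Dm a b 1 π = Dm a b 1 π * (1 + π • (Dm a b π 1 * Z * Dm a b 1 π)) := by
  rw [e, mul_add, add_mul, one_mul, mul_one, mul_smul_comm, ← mul_assoc, ← mul_assoc, D_D',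
    smul_mul_assoc, smul_mul_assoc, smul_mul_assoc, one_mul, smul_smul]

omit [IsDomain R] in
lemma conj_form {γ : Γ} (g : Γ) {c : R} {Z : Mt a b R} (e : (f γ).1 = 1 + c • Z) :
    (f (g * γ * g⁻¹)).1 = 1 + c • ((f g).1 * Z * (f g⁻¹).1) := by
  rw [f_mul, f_mul, e, mul_add, add_mul, mul_one, f_mul_inv, mul_smul_comm, smul_mul_assoc]

/-- upper right block -/
def eb (A : Mt a b F) : Mt a b F := Dm a b 1 0 * A * Dm a b 0 1

lemma Good.chi_sq (hG : Good f π μ red O) (ψ : AddChar F ℂ) (A : Mt a b F) {γ : Γ} {Z : Mt a b R}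
    (e : (f γ).1 = 1 + (π * π) • Z) :
    γ ∈ Hk f hG.ne π ∧ chi f π red ψ A γ = ψ (eb A * Z.map red).trace := by
  refine ⟨⟨_, sq_conj e⟩, ?_⟩
  unfold chi eb
  rw [phi_eq f hG.ne red (sq_conj e), Matrix.map_mul, Matrix.map_mul, Dm_map, Dm_map, hG.red_pi,
    map_one, ← mul_assoc, trace_mul_comm, ← mul_assoc, ← mul_assoc]

lemma Good.cube_mem (hG : Good f π μ red O) {γ : Γ} {Z : Mt a b R}
    (e : (f γ).1 = 1 + (π * π * π) • Z) (g : Γ) : g⁻¹ * γ * g ∈ Hk f hG.ne (π * π) := by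
  have h1 := conj_form g⁻¹ e
  rw [inv_inv, ← smul_smul] at h1
  refine ⟨Dm a b π 1 * ((f g⁻¹).1 * Z * (f g).1) * Dm a b 1 π, ?_⟩
  rw [sq_conj h1, mul_smul_comm, smul_mul_assoc, smul_smul]

lemma eb_apply (A : Mt a b F) (i j : Ix a b) : eb A i j = dv a b 1 0 i * A i j * dv a b 0 1 j := by
  simp [eb, Dm]

lemma eb_sq (A : Mt a b F) : eb A * eb A = 0 := by
  unfold eb
  have : Dm a b (0 : F) 1 * Dm a b 1 0 = 0 := by rw [Dm_mul, zero_mul, mul_zero, Dm_self, zero_smul]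
  calc _ = Dm a b 1 0 * A * (Dm a b 0 1 * Dm a b 1 0) * A * Dm a b 0 1 := by simp only [mul_assoc]
    _ = 0 := by rw [this]; simp

lemma prim_eq {ψ : AddChar F ℂ} (hψ : ψ.IsPrimitive) {x y m : F} (hm : m ≠ 0)
    (h : ∀ t, ψ (t * m * x) = ψ (t * m * y)) : x = y := by
  by_contra hne
  refine hψ (mul_ne_zero hm (sub_ne_zero.2 hne)) ?_
  ext t
  have h1 : ψ (t * m * x + -(t * m * y)) = 1 := by
    rw [AddChar.map_add_eq_mul, h, ← AddChar.map_add_eq_mul, add_neg_cancel,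
      AddChar.map_zero_eq_one]
  rw [AddChar.mulShift_apply, AddChar.one_apply, ← h1]
  congr 1; ring

omit [IsDomain R] in
lemma map_vecMulVec_int (red : R →+* F) (y η : Ix a b → ℤ) :
    (vecMulVec (fun i => (y i : R)) (fun i => (η i : R))).map red =
      vecMulVec (fun i => (y i : F)) (fun i => (η i : F)) := by
  ext i j; simp [vecMulVec_apply]

omit [IsDomain R] in
lemma dot_int (y η : Ix a b → ℤ) (h : η ⬝ᵥ y = 0) :
    (fun i => (η i : R)) ⬝ᵥ (fun i => (y i : R)) = 0 := by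
  have := congrArg (Int.cast : ℤ → R) h
  simpa [dotProduct] using this

omit [IsDomain R] in
lemma map_smul_red (red : R →+* F) (c : R) (X : Mt a b R) : (c • X).map red = red c • X.map red := by
  ext i j; simp

/-- an intertwiner stabilises the vertex -/
lemma Good.claim1 (hG : Good f π μ red O) (ha : 0 < a) {ψ : AddChar F ℂ} (hψ : ψ.IsPrimitive)
    {A A' : Mt a b F} (hA' : A' ∈ Gen a b F) {g : Γ}
    (hg : ∀ h ∈ Hk f hG.ne π, g * h * g⁻¹ ∈ Hk f hG.ne π →
      chi f π red ψ A h = chi f π red ψ A' (g * h * g⁻¹)) :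
    ((f g).1.toBlocks₂₁).map red = 0 := by
  set G := (f g).1.map red with hGdef
  set G' := (f g⁻¹).1.map red with hG'def
  have hGG : G * G' = 1 := by
    rw [hGdef, hG'def, ← Matrix.map_mul, f_mul_inv, Matrix.map_one _ (map_zero _) (map_one _)]
  have hGG' : G' * G = 1 := by
    rw [hGdef, hG'def, ← Matrix.map_mul, f_inv_mul, Matrix.map_one _ (map_zero _) (map_one _)]
  obtain ⟨c, hc⟩ := scalar_of_trace (Sum.inl ⟨0, ha⟩) (G' * eb A' * G - eb A) fun y η hy => by
    rw [sub_mul, trace_sub, sub_eq_zero]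
    refine (prim_eq hψ hG.mu fun t => ?_).symm
    obtain ⟨c, hcO, rfl⟩ := hG.surj t
    obtain ⟨γ, hγ⟩ := hG.tv (fun i => (π * π * c) * (y i : R)) (fun i => (η i : R))
      (fun i => mul_mem (mul_mem (mul_mem hG.pi_mem hG.pi_mem) hcO) (intCast_mem O _))
      (fun i => intCast_mem O _) (by
        have := dot_int (R := R) y η hy
        change (fun i => (η i : R)) ⬝ᵥ ((π * π * c) • fun i => (y i : R)) = 0
        rw [dotProduct_smul, this, smul_zero])
    have e : (f γ).1 = 1 + (π * π) •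
        ((c * μ) • vecMulVec (fun i => (y i : R)) (fun i => (η i : R))) := by
      rw [hγ]
      congr 1
      ext i j
      simp only [vecMulVec_apply, Matrix.smul_apply, smul_eq_mul]; ring
    obtain ⟨h1, h2⟩ := hG.chi_sq ψ A e
    obtain ⟨h3, h4⟩ := hG.chi_sq ψ A' (conj_form g e)
    have h5 := hg γ h1 h3
    rw [h2, h4, Matrix.map_mul, Matrix.map_mul, map_smul_red, map_vecMulVec_int, map_mul,
      ← hGdef, ← hG'def] at h5
    rw [← smul_eq_mul (red c * red μ), ← smul_eq_mul (red c * red μ), ← trace_smul, ← trace_smul,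
      ← mul_smul_comm, ← mul_smul_comm, h5, ← mul_assoc, trace_mul_comm]
    simp only [mul_assoc]
  have h1 : G' * eb A' * G = eb A + c • 1 := by rw [← hc]; abel
  have h2 : (eb A + c • 1) * (eb A + c • 1) = 0 := by
    rw [← h1]
    calc _ = G' * eb A' * (G * G') * eb A' * G := by simp only [mul_assoc]
      _ = G' * (eb A' * eb A') * G := by rw [hGG]; simp only [mul_assoc, one_mul]
      _ = 0 := by rw [eb_sq]; simp
  have h3 : c = 0 := by
    rw [mul_add, add_mul, add_mul, eb_sq] at h2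
    have := congrFun (congrFun h2 (Sum.inl ⟨0, ha⟩)) (Sum.inl ⟨0, ha⟩)
    simpa [eb_apply, dv] using this
  rw [h3, zero_smul, add_zero] at h1
  have h4 : eb A' * G = G * eb A := by
    rw [← h1, ← mul_assoc, ← mul_assoc, hGG, one_mul]
  ext k j
  refine Fintype.linearIndependent_iff.1 hA' (fun k => G (Sum.inr k) (Sum.inl j)) ?_ k
  funext i
  have := congrFun (congrFun h4 (Sum.inl i)) (Sum.inl j)
  simpa [Matrix.mul_apply, eb_apply, dv, mul_comm] using this

omit [IsDomain R] in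
lemma exists_conj {X : Mt a b R} {C : Matrix (Fin b) (Fin a) R} (h : X.toBlocks₂₁ = π • C) :
    X * Dm a b 1 π = Dm a b 1 π * fromBlocks X.toBlocks₁₁ (π • X.toBlocks₁₂) C X.toBlocks₂₂ := by
  ext i j
  have h' : ∀ i j, X (Sum.inr i) (Sum.inl j) = π * C i j := fun i j => congrFun (congrFun h i) j
  rcases i with i | i <;> rcases j with j | j <;>
    simp [Dm, dv, toBlocks₁₁, toBlocks₁₂, toBlocks₂₂, h', mul_comm]

lemma Good.claim2 (hG : Good f π μ red O) (ha : 0 < a) {ψ : AddChar F ℂ} (hψ : ψ.IsPrimitive)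
    {A A' : Mt a b F} (hA' : A' ∈ Gen a b F) {g : Γ}
    (hg : ∀ h ∈ Hk f hG.ne π, g * h * g⁻¹ ∈ Hk f hG.ne π →
      chi f π red ψ A h = chi f π red ψ A' (g * h * g⁻¹)) :
    ∃ (K : Par a b F) (c : F), A = K.1.1.adjugate * A' * K.1.1 - c • 1 := by
  obtain ⟨C, hC⟩ := hG.exists_div (hG.claim1 ha hψ hA' hg)
  have e := exists_conj hC
  set Y := fromBlocks (f g).1.toBlocks₁₁ (π • (f g).1.toBlocks₁₂) C (f g).1.toBlocks₂₂ with hY
  have hdet := det_of_conj hG.ne (f g).2 e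
  obtain ⟨y1, y2, y3⟩ := conj_inv f hG.ne e
  have hdet' : (Y.map red).det = 1 := by
    rw [← RingHom.mapMatrix_apply, ← RingHom.map_det, hdet, map_one]
  have hadj : (Y.map red).adjugate = Y.adjugate.map red := by
    rw [← RingHom.mapMatrix_apply, ← RingHom.mapMatrix_apply, RingHom.map_adjugate]
  have hblk : (Y.map red).toBlocks₁₂ = 0 := by
    ext i j
    simp [hY, toBlocks₁₂, hG.red_pi]
  obtain ⟨c, hc⟩ := scalar_of_trace (Sum.inl ⟨0, ha⟩)
    ((Y.map red).adjugate * A' * Y.map red - A) fun u ξ hu => by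
    rw [sub_mul, trace_sub, sub_eq_zero]
    refine (prim_eq hψ hG.mu fun t => ?_).symm
    obtain ⟨c, hcO, rfl⟩ := hG.surj t
    have hdv : ∀ (x y : R), x ∈ O → y ∈ O → ∀ i, dv a b x y i ∈ O := fun x y hx hy i => by
      cases i
      · exact hx
      · exact hy
    obtain ⟨γ, hγ⟩ := hG.tv (fun i => dv a b 1 π i * (c * (u i : R)))
      (fun i => dv a b π 1 i * (ξ i : R))
      (fun i => mul_mem (hdv _ _ (one_mem _) hG.pi_mem i) (mul_mem hcO (intCast_mem O _)))
      (fun i => mul_mem (hdv _ _ hG.pi_mem (one_mem _) i) (intCast_mem O _)) (by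
        have := dot_int (R := R) u ξ hu
        have h2 : (π * c) * ((fun i => (ξ i : R)) ⬝ᵥ (fun i => (u i : R))) = 0 := by
          rw [this, mul_zero]
        rw [← h2, dotProduct, dotProduct, Finset.mul_sum]
        refine Finset.sum_congr rfl fun i _ => ?_
        cases i <;> simp [dv] <;> ring)
    set φ := (c * μ) • vecMulVec (fun i => (u i : R)) (fun i => (ξ i : R)) with hφ
    have e1 : (f γ).1 * Dm a b 1 π = Dm a b 1 π * (1 + π • φ) := by
      rw [hγ, add_mul, mul_add, one_mul, mul_one]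
      congr 1
      ext i j
      rcases i with i | i <;> rcases j with j | j <;>
        simp [hφ, Dm, dv, vecMulVec_apply] <;> ring
    have e2 : (f (g * γ * g⁻¹)).1 * Dm a b 1 π =
        Dm a b 1 π * (1 + π • (Y * φ * Y.adjugate)) := by
      rw [f_mul, f_mul, mul_assoc, y3, ← mul_assoc, mul_assoc (f g).1, e1, ← mul_assoc, e,
        mul_assoc, mul_assoc, add_mul, one_mul, mul_add, y1, smul_mul_assoc, mul_smul_comm,
        mul_assoc]
    have h5 := hg γ ⟨_, e1⟩ ⟨_, e2⟩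
    unfold chi at h5
    rw [phi_eq f hG.ne red e1, phi_eq f hG.ne red e2, Matrix.map_mul, Matrix.map_mul, hφ,
      map_smul_red, map_vecMulVec_int, map_mul, ← hadj] at h5
    rw [← smul_eq_mul (red c * red μ), ← smul_eq_mul (red c * red μ), ← trace_smul, ← trace_smul,
      ← mul_smul_comm, ← mul_smul_comm, h5, ← mul_assoc, trace_mul_comm]
    simp only [mul_assoc]
  exact ⟨⟨⟨Y.map red, hdet'⟩, hblk⟩, c, by rw [← hc]; simp⟩

end Pool.Agent.MP_8299d6_al
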