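import Pool.Agent.MP_8299d6_al.Loc

/-! Index bounds and the local family of irreducible representations. -/

open Matrix

noncomputable section

namespace Pool.Agent.MP_8299d6_al

variable {Γ : Type} [Group Γ] {a b : ℕ} {R F : Type} [CommRing R] [Field F]
  {f : Γ →* Matrix.SpecialLinearGroup (Ix a b) R} {π μ : R} {red : R →+* F} {O : Subring R}

lemma blk21_mul (X Y : Mt a b R) :
    (X * Y).toBlocks₂₁ = X.toBlocks₂₁ * Y.toBlocks₁₁ + X.toBlocks₂₂ * Y.toBlocks₂₁ := by
  conv_lhs => rw [← fromBlocks_toBlocks X, ← fromBlocks_toBlocks Y, fromBlocks_multiply,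
    toBlocks_fromBlocks₂₁]

/-- reduction to the residue field -/
def fb (f : Γ →* Matrix.SpecialLinearGroup (Ix a b) R) (red : R →+* F) :
    Γ →* Matrix.SpecialLinearGroup (Ix a b) F := (Matrix.SpecialLinearGroup.map red).comp f

lemma memU {h : Γ} (hh : fb f red h ∈ Uni a b F) :
    (f h).1.toBlocks₁₁.map red = 1 ∧ (f h).1.toBlocks₂₁.map red = 0 ∧
      (f h).1.toBlocks₂₂.map red = 1 := by
  obtain ⟨B, hB⟩ := hh
  have hB' : (f h).1.map red = fromBlocks 1 B 0 1 := hB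
  rw [← fromBlocks_toBlocks (f h).1, fromBlocks_map, fromBlocks_inj] at hB'
  exact ⟨hB'.1, hB'.2.2.1, hB'.2.2.2⟩

open Classical in
def theta (f : Γ →* Matrix.SpecialLinearGroup (Ix a b) R) (π : R) (red : R →+* F) (h : Γ) :
    Matrix (Fin b) (Fin a) F :=
  if e : ∃ C : Matrix (Fin b) (Fin a) R, (f h).1.toBlocks₂₁ = π • C then e.choose.map red else 0

variable [IsDomain R]

lemma smul_cancel' {m n : Type} (h : π ≠ 0) {X Y : Matrix m n R} (e : π • X = π • Y) : X = Y := by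
  ext i j
  exact mul_left_cancel₀ h (congrFun (congrFun e i) j)

lemma theta_eq (h0 : π ≠ 0) {h : Γ} {C : Matrix (Fin b) (Fin a) R}
    (e : (f h).1.toBlocks₂₁ = π • C) : theta f π red h = C.map red := by
  have h1 : ∃ C : Matrix (Fin b) (Fin a) R, (f h).1.toBlocks₂₁ = π • C := ⟨C, e⟩
  rw [theta, dif_pos h1, smul_cancel' h0 (h1.choose_spec.symm.trans e)]

lemma Good.mem_H (hG : Good f π μ red O) {h h' : Γ} (hh : fb f red h ∈ Uni a b F)
    (hh' : fb f red h' ∈ Uni a b F) (e : theta f π red h = theta f π red h') :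
    h⁻¹ * h' ∈ Hk f hG.ne π := by
  have hk : fb f red (h⁻¹ * h') ∈ Uni a b F := by
    rw [map_mul, map_inv]; exact mul_mem (inv_mem hh) hh'
  set k := h⁻¹ * h' with hkdef
  have hk' : h' = h * k := by rw [hkdef, mul_inv_cancel_left]
  obtain ⟨-, a2, a3⟩ := memU hh
  obtain ⟨-, b2, -⟩ := memU hh'
  obtain ⟨c1, c2, c3⟩ := memU hk
  obtain ⟨C, hC⟩ := hG.exists_div a2
  obtain ⟨C', hC'⟩ := hG.exists_div b2
  obtain ⟨E, hE⟩ := hG.exists_div c2
  rw [theta_eq hG.ne hC, theta_eq hG.ne hC'] at e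
  have h1 : C' = C * (f k).1.toBlocks₁₁ + (f h).1.toBlocks₂₂ * E := by
    refine smul_cancel' hG.ne ?_
    rw [← hC', hk', f_mul, blk21_mul, hC, hE, smul_add, Matrix.smul_mul, Matrix.mul_smul]
  have h2 : E.map red = 0 := by
    have := congrArg (fun X => Matrix.map X red) h1
    simp only [Matrix.map_add _ (map_add red), Matrix.map_mul, c1, a3, Matrix.mul_one,
      Matrix.one_mul, ← e] at this
    exact left_eq_add.1 this
  obtain ⟨E', rfl⟩ := hG.exists_div h2
  obtain ⟨P, hP⟩ := hG.exists_div (X := (f k).1.toBlocks₁₁ - 1) (by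
    rw [Matrix.map_sub _ (map_sub red), c1, Matrix.map_one _ (map_zero _) (map_one _), sub_self])
  obtain ⟨Q, hQ⟩ := hG.exists_div (X := (f k).1.toBlocks₂₂ - 1) (by
    rw [Matrix.map_sub _ (map_sub red), c3, Matrix.map_one _ (map_zero _) (map_one _), sub_self])
  refine ⟨fromBlocks P (f k).1.toBlocks₁₂ E' Q, ?_⟩
  rw [exists_conj hE, fromBlocks_smul, ← fromBlocks_one, fromBlocks_add, ← hP, ← hQ]
  simp

variable [Fintype F]

lemma Good.index_H (hG : Good f π μ red O) (ha : 0 < a) :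
    Finite (Γ ⧸ Hk f hG.ne π) ∧
      (Hk f hG.ne π).index * Fintype.card F ≤ 2 * Fintype.card F ^ ((a + b) ^ 2) := by
  classical
  let q : Γ → Matrix.SpecialLinearGroup (Ix a b) F ⧸ Uni a b F :=
    fun g => QuotientGroup.mk (fb f red g)
  let sec : Γ → Γ := fun g => Function.invFun q (q g)
  have hsec : ∀ g, fb f red ((sec g)⁻¹ * g) ∈ Uni a b F := fun g => by
    rw [map_mul, map_inv]
    exact QuotientGroup.eq.1 (Function.invFun_eq (f := q) ⟨g, rfl⟩)
  obtain ⟨h1, h2⟩ := index_le_of_fun (Hk f hG.ne π)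
    (fun g => (q g, theta f π red ((sec g)⁻¹ * g))) fun g g' e => by
      obtain ⟨e1, e2⟩ := Prod.mk.inj e
      have e3 : sec g = sec g' := by simp only [sec, e1]
      have := hG.mem_H (hsec g) (hsec g') e2
      rw [e3] at this
      simpa [mul_assoc] using this
  refine ⟨h1, le_trans ?_ (index_Uni (b := b) (F := F) ha)⟩
  rw [Nat.card_prod, card_mat] at h2
  simp only [Fintype.card_fin] at h2
  gcongr
  exact h2

lemma Good.finiteIndex_N (hG : Good f π μ red O) (ha : 0 < a) :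
    (Hk f hG.ne (π * π)).FiniteIndex := by
  classical
  have h1 := (hG.index_H ha).1
  let H := Hk f hG.ne π
  have hm : ∀ g : Γ, (QuotientGroup.mk g : Γ ⧸ H).out⁻¹ * g ∈ H := fun g =>
    QuotientGroup.eq.1 (QuotientGroup.out_eq' _)
  obtain ⟨h2, -⟩ := index_le_of_fun (Hk f hG.ne (π * π))
    (fun g => ((QuotientGroup.mk g : Γ ⧸ H),
      phi f π red ((QuotientGroup.mk g : Γ ⧸ H).out⁻¹ * g))) fun g g' e => by
      obtain ⟨e1, e2⟩ := Prod.mk.inj e
      have a1 := hm g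
      have a2 := hm g'
      rw [e1] at a1 e2
      have a3 : g⁻¹ * g' ∈ H := QuotientGroup.eq.1 e1
      refine hG.mem_N a3 ?_
      have := hG.phi_mul a1 a3
      rw [mul_assoc, mul_inv_cancel_left, ← e2] at this
      exact left_eq_add.1 this
  exact Subgroup.finiteIndex_of_finite_quotient

theorem Good.local_main (hG : Good f π μ red O) (hb : 0 < b) (hab : b ≤ a) :
    ∃ (n : Gen a b F → ℕ) (ρ : ∀ A, IrrRep Γ (n A + 1)),
      (∀ A, (n A + 1) * Fintype.card F ≤ 2 * Fintype.card F ^ ((a + b) ^ 2)) ∧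
      (∀ A, Set.encard {A' | Nonempty ((ρ A').1.Equiv (ρ A).1)} ≤
        (2 * Fintype.card F ^ (a * a + a * b + b * b) : ℕ)) ∧
      (∀ A γ, (∃ Z : Mt a b R, (f γ).1 = 1 + (π * π * π) • Z) → (ρ A).1 γ = 1) ∧
      (∀ A, ∃ i j, ∃ c ∈ O, ∀ γ, (f γ).1 = 1 + (μ * c) • single (Sum.inr j) (Sum.inl i) 1 →
        (ρ A).1 γ ≠ 1) := by
  classical
  have ha : 0 < a := by omega
  have hN := hG.finiteIndex_N ha
  let ψ := AddChar.FiniteField.primitiveChar_to_Complex F
  have hψ : ψ.IsPrimitive := AddChar.FiniteField.primitiveChar_to_Complex_isPrimitive F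
  choose n hn ρ v hv he using fun A : Gen a b F => exists_irr (hG.isChar ψ A.1)
  refine ⟨n, ρ, fun A => le_trans (Nat.mul_le_mul_right _ (hn A)) (hG.index_H ha).2,
    fun A => ?_, fun A γ ⟨Z, hZ⟩ => ?_, fun A => ?_⟩
  · let t : Par a b F × F → Mt a b F := fun x => x.1.1.1.adjugate * A.1 * x.1.1.1 - x.2 • 1
    have h1 : Subtype.val '' {A' | Nonempty ((ρ A').1.Equiv (ρ A).1)} ⊆ t '' Set.univ := by
      rintro _ ⟨A', ⟨e⟩, rfl⟩
      obtain ⟨g, hg⟩ := intertwine (χ := chi f π red ψ A'.1) (ρ A).2 (hG.isChar ψ A.1)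
        (v := e (v A')) (fun e0 => hv A' (e.toLinearEquiv.map_eq_zero_iff.1 e0)) (hv A)
        (fun h hh => by
          rw [← equiv_apply e, he A' h hh]
          exact map_smul e.toLinearEquiv _ _) (he A)
      obtain ⟨K, c, hK⟩ := hG.claim2 ha hψ A.2 hg
      exact ⟨(K, c), trivial, hK.symm⟩
    rw [← Subtype.val_injective.encard_image]
    refine (Set.encard_le_encard h1).trans ((Set.encard_image_le _ _).trans ?_)
    rw [Set.encard_univ, ENat.card_eq_coe_natCard, Nat.card_prod, Nat.card_eq_fintype_card (α := F)]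
    exact_mod_cast card_Par ha
  · refine fix_of_conj (ρ A).2 (hv A) fun g => ?_
    have h1 := hG.cube_mem hZ g
    rw [he A _ (hG.N_le h1), (hG.isChar ψ A.1).one _ h1, one_smul]
  · obtain ⟨i, hi⟩ : ∃ i, A.1 (Sum.inl i) (Sum.inr ⟨0, hb⟩) ≠ 0 := by
      by_contra hcon
      push Not at hcon
      exact A.2.ne_zero ⟨0, hb⟩ (funext hcon)
    obtain ⟨t, ht⟩ : ∃ t, ψ (t * red μ * A.1 (Sum.inl i) (Sum.inr ⟨0, hb⟩)) ≠ ψ (t * red μ * 0) := by
      by_contra hcon
      push Not at hcon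
      exact hi (prim_eq hψ hG.mu hcon)
    obtain ⟨c, hc, rfl⟩ := hG.surj t
    refine ⟨i, ⟨0, hb⟩, π * π * c, mul_mem (mul_mem hG.pi_mem hG.pi_mem) hc, fun γ hγ h1 => ht ?_⟩
    have e : (f γ).1 = 1 + (π * π) •
        ((c * μ) • single (Sum.inr ⟨0, hb⟩) (Sum.inl i) 1 : Mt a b R) := by
      rw [hγ, smul_smul]; congr 2; ring
    obtain ⟨h2, h3⟩ := hG.chi_sq ψ A.1 e
    have h4 := he A γ h2
    rw [h1, Module.End.one_apply] at h4
    have h5 : chi f π red ψ A.1 γ = 1 :=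
      smul_left_injective ℂ (hv A) (h4.symm.trans (one_smul ℂ _).symm)
    rw [mul_zero, AddChar.map_zero_eq_one, ← h5, h3, map_smul_red, map_mul red, mul_smul_comm,
      trace_smul, smul_eq_mul, Matrix.map_single _ _ _ red, map_one, trace_mul_single]
    simp [eb_apply, dv]

end Pool.Agent.MP_8299d6_al
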