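import Pool.Agent.MP_8299d6_al.Glob

/-! Divergence of the representation zeta function. -/

open Matrix NumberField
open scoped ENNReal NNReal

noncomputable section

namespace Pool.Agent.MP_8299d6_al

variable {Γ : Type} [Group Γ] {a b : ℕ} {k : Type} [Field k] [NumberField k]

lemma term_ge {q S : ℕ} (hq : 1 ≤ q) (hb : 0 < b) (hab : b ≤ a)
    (hS : q ^ ((a + b) ^ 2) ≤ 2 ^ b * S) :
    ((2 : ℝ) ^ b * 2 * 2 ^ (((a * b : ℕ) + 1 : ℝ) / (((a + b : ℕ) : ℝ) ^ 2 - 1)))⁻¹ * (q : ℝ)⁻¹ ≤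
      S * (((2 * q ^ (a * a + a * b + b * b) : ℕ) : ℝ)⁻¹ *
        ((2 * q ^ ((a + b) ^ 2 - 1) : ℕ) : ℝ) ^
          (-(((a * b : ℕ) + 1 : ℝ) / (((a + b : ℕ) : ℝ) ^ 2 - 1)))) := by
  set s : ℝ := ((a * b : ℕ) + 1 : ℝ) / (((a + b : ℕ) : ℝ) ^ 2 - 1) with hs
  have h2 : 2 ≤ a + b := by omega
  have h4 : 4 ≤ (a + b) ^ 2 := by nlinarith
  have hD : ((((a + b) ^ 2 - 1 : ℕ)) : ℝ) = ((a + b : ℕ) : ℝ) ^ 2 - 1 := by
    rw [Nat.cast_sub (by omega)]; push_cast; ring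
  have hD0 : (((a + b : ℕ) : ℝ) ^ 2 - 1) ≠ 0 := by
    rw [← hD]; exact Nat.cast_ne_zero.2 (by omega)
  have hq0 : (0 : ℝ) < q := by exact_mod_cast hq
  have e1 : ((2 * q ^ ((a + b) ^ 2 - 1) : ℕ) : ℝ) ^ (-s) = ((2 : ℝ) ^ s * q ^ (a * b + 1))⁻¹ := by
    rw [Real.rpow_neg (by positivity), Nat.cast_mul, Nat.cast_pow,
      Real.mul_rpow (by positivity) (by positivity), ← Real.rpow_natCast (q : ℝ),
      ← Real.rpow_mul hq0.le, hD, hs, mul_div_cancel₀ _ hD0, ← Real.rpow_natCast (q : ℝ)]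
    push_cast; rfl
  have hS' : (q : ℝ) ^ ((a + b) ^ 2) ≤ 2 ^ b * S := by exact_mod_cast hS
  have e2 : (q : ℝ) ^ ((a + b) ^ 2) * q = q ^ (a * a + a * b + b * b) * q ^ (a * b + 1) := by
    rw [← pow_succ, ← pow_add]; congr 1; ring
  have h2s : (0 : ℝ) < 2 ^ s := by positivity
  rw [e1]
  push_cast
  rw [← mul_inv, ← mul_inv, ← div_eq_mul_inv, inv_eq_one_div, div_le_div_iff₀ (by positivity)
    (by positivity)]
  calc _ = 2 * 2 ^ s * ((q : ℝ) ^ ((a + b) ^ 2) * q) := by rw [e2]; ring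
    _ ≤ 2 * 2 ^ s * ((2 ^ b * S) * q) := by gcongr
    _ = _ := by ring

theorem zeta_top {j : Γ →* Matrix.SpecialLinearGroup (Ix a b) k} {M μ : 𝓞 k} (hj : Glob j M μ)
    (hM : M ≠ 0) (hμ : μ ≠ 0) (hb : 0 < b) (hab : b ≤ a) :
    repZeta Γ (((a * b : ℕ) + 1 : ℝ) / (((a + b : ℕ) : ℝ) ^ 2 - 1)) = ⊤ := by
  classical
  set s : ℝ := ((a * b : ℕ) + 1 : ℝ) / (((a + b : ℕ) : ℝ) ^ 2 - 1) with hs
  have hs0 : 0 ≤ s := by
    refine div_nonneg (by positivity) ?_
    have : (2 : ℝ) ≤ ((a + b : ℕ) : ℝ) := by exact_mod_cast (by omega : 2 ≤ a + b)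
    nlinarith
  let T := {P : Ideal (𝓞 k) // (Ideal.absNorm P).Prime ∧ M * μ ∉ P}
  have hne : ∀ P : T, P.1 ≠ ⊥ := fun P e => by
    have := P.2.1
    rw [e, Ideal.absNorm_bot] at this
    exact Nat.not_prime_zero this
  have hmax : ∀ P : T, P.1.IsMaximal := fun P =>
    Ring.DimensionLEOne.maximalOfPrime (hne P) (Ideal.isPrime_of_irreducible_absNorm P.2.1)
  have hfam := fun P : T =>
    haveI := hmax P
    haveI : Finite (𝓞 k ⧸ P.1) := Ideal.finiteQuotientOfFreeOfNeBot _ (hne P)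
    prime_family hj P.1 (hne P) (fun h => P.2.2 (P.1.mul_mem_right _ h))
      (fun h => P.2.2 (P.1.mul_mem_left _ h)) hb hab
  choose S hS n ρ h1 h2 h3 h4 h5 using hfam
  let q : T → ℕ := fun P => Ideal.absNorm P.1
  have hq : ∀ P, 1 ≤ q P := fun P => P.2.1.one_le
  have hsep : ∀ x y : Σ P, S P, Nonempty ((ρ x.1 x.2).1.Equiv (ρ y.1 y.2).1) → x.1 = y.1 := by
    rintro ⟨P, x⟩ ⟨P', y⟩ ⟨e⟩
    by_contra hPP
    have hPP' : P.1 ≠ P'.1 := fun h => hPP (Subtype.ext h)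
    have hco : IsCoprime (P.1 ^ 3) (P'.1 ^ 3) :=
      (Ideal.isCoprime_iff_sup_eq.2 ((hmax P).coprime_of_ne (hmax P') hPP')).pow
    obtain ⟨i, l, c, hc⟩ := h5 P x
    have hc' : c ∈ P.1 ^ 3 ⊔ P'.1 ^ 3 := by rw [Ideal.isCoprime_iff_sup_eq.1 hco]; trivial
    obtain ⟨u, hu, w, hw, rfl⟩ := Submodule.mem_sup.1 hc'
    set E : Mt a b k := single (Sum.inr l) (Sum.inl i) 1 with hE
    have hEE : E * E = 0 := single_mul_single_of_ne _ _ _ _ (by simp) _
    have key : ∀ z : 𝓞 k, ∃ γ, (j γ).1 = 1 + algebraMap (𝓞 k) k (μ * z) • E := fun z => by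
      obtain ⟨γ, hγ⟩ := hj.tv (Pi.single (Sum.inr l) z) (Pi.single (Sum.inl i) 1) (by simp)
      refine ⟨γ, ?_⟩
      rw [hγ, map_mul, ← smul_smul]
      congr 2
      ext i' l'
      by_cases h1 : i' = Sum.inr l <;> by_cases h2 : l' = Sum.inl i <;>
        simp [hE, vecMulVec_apply, h1, h2, eq_comm]
    have key2 : ∀ z : 𝓞 k, algebraMap (𝓞 k) k (μ * z) • E = algebraMap (𝓞 k) k z •
        (μ • single (Sum.inr l) (Sum.inl i) 1 : Mt a b (𝓞 k)).map (algebraMap (𝓞 k) k) :=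
      fun z => by
        rw [map_smul_red, Matrix.map_single _ _ _ (algebraMap (𝓞 k) k), map_one, smul_smul,
          ← map_mul, mul_comm]
    obtain ⟨γ1, hγ1⟩ := key u
    obtain ⟨γ2, hγ2⟩ := key w
    refine hc (γ1 * γ2) ?_ ?_
    · rw [f_mul, hγ1, hγ2, mul_add μ, map_add, add_smul]
      simp only [mul_add, add_mul, one_mul, mul_one, smul_mul_assoc, mul_smul_comm, hEE, smul_zero,
        add_zero, add_assoc]
    · have a1 := h4 P x γ1 u hu _ (by rw [hγ1, key2])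
      have a2 := h4 P' y γ2 w hw _ (by rw [hγ2, key2])
      have a3 : (ρ P x).1 γ2 = 1 := by
        refine LinearMap.ext fun v => ?_
        apply e.toLinearEquiv.injective
        have := equiv_apply e γ2 v
        rw [a2] at this
        exact this
      rw [map_mul, a1, a3, one_mul]
  have hmain := repZeta_ge (G := Γ) (J := Σ P, S P) (fun x => n x.1 x.2)
    (fun x => 2 * q x.1 ^ ((a + b) ^ 2 - 1)) (fun x => 2 * q x.1 ^ (a * a + a * b + b * b))
    (fun x => ρ x.1 x.2) (fun x => by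
      have h := h2 x.1 x.2
      have h4 : 1 ≤ (a + b) ^ 2 := Nat.one_le_pow _ _ (by omega)
      have e : q x.1 ^ ((a + b) ^ 2) = q x.1 ^ ((a + b) ^ 2 - 1) * q x.1 := by
        rw [← pow_succ]; congr 1; omega
      change (n x.1 x.2 + 1) * q x.1 ≤ 2 * q x.1 ^ ((a + b) ^ 2) at h
      rw [e, ← mul_assoc] at h
      exact Nat.le_of_mul_le_mul_right h (hq _))
    (fun x => by have := hq x.1; positivity) (fun x y h => by simp only [hsep x y h])
    (fun x => by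
      obtain ⟨P, x⟩ := x
      refine le_trans ?_ (h3 P x)
      refine le_trans (Set.encard_le_encard ?_) (Set.encard_image_le (Sigma.mk P) _)
      rintro ⟨P', y⟩ hy
      obtain rfl : P' = P := hsep _ _ hy
      exact ⟨y, hy, rfl⟩) hs0
  rw [eq_top_iff]
  refine le_trans ?_ hmain
  rw [ENNReal.tsum_sigma']
  set C : ℝ := ((2 : ℝ) ^ b * 2 * 2 ^ s)⁻¹ with hC
  have hC0 : 0 < C := by positivity
  have hdiv : ∑' P : T, ENNReal.ofReal (C * (q P : ℝ)⁻¹) = ⊤ := by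
    by_contra hcon
    have := ENNReal.tsum_coe_ne_top_iff_summable_coe.1 hcon
    refine not_summable_primes k (mul_ne_zero hM hμ) ?_
    refine (summable_mul_left_iff hC0.ne').1 (this.congr fun P => ?_)
    exact Real.coe_toNNReal _ (by positivity)
  rw [← hdiv]
  refine ENNReal.tsum_le_tsum fun P => ?_
  have := hS P
  simp only [ENNReal.tsum_const]
  refine (ENNReal.ofReal_le_ofReal (term_ge (hq P) hb hab (h1 P))).trans (le_of_eq ?_)
  have hq' := hq P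
  rw [ENNReal.ofReal_mul (by positivity), ENNReal.ofReal_mul (by positivity),
    ENNReal.ofReal_inv_of_pos (by positivity), ← ENNReal.ofReal_rpow_of_pos (by positivity),
    ENNReal.ofReal_natCast, ENNReal.ofReal_natCast, ENNReal.ofReal_natCast,
    ENat.card_eq_coe_natCard]
  rfl

lemma one_add_pow_sq_zero {R : Type} [Ring R] {N : R} (h : N * N = 0) (m : ℕ) :
    (1 + N) ^ m = 1 + m • N := by
  induction m with
  | zero => simp
  | succ m ih =>
    rw [pow_succ, ih, mul_add, mul_one, add_mul, smul_mul_assoc, h, succ_nsmul]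
    simp [add_assoc]

/-- change of the index type -/
def rx {ι κ R : Type} [Fintype ι] [DecidableEq ι] [Fintype κ] [DecidableEq κ] [CommRing R]
    (e : κ ≃ ι) : Matrix.SpecialLinearGroup ι R →* Matrix.SpecialLinearGroup κ R where
  toFun g := ⟨g.1.submatrix e e, by rw [det_submatrix_equiv_self]; exact g.2⟩
  map_one' := Subtype.ext (submatrix_one_equiv e)
  map_mul' x y := Subtype.ext (submatrix_mul_equiv x.1 y.1 e e e).symm

theorem exists_glob {d : ℕ} (e : Ix a b ≃ Fin d) (Γ : Subgroup (Matrix.SpecialLinearGroup (Fin d) k))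
    (hΓ : Γ.Commensurable (Matrix.SpecialLinearGroup.map (algebraMap (𝓞 k) k)).range) :
    ∃ M μ : 𝓞 k, M ≠ 0 ∧ μ ≠ 0 ∧ Glob ((rx e).comp Γ.subtype) M μ := by
  classical
  set Λ := (Matrix.SpecialLinearGroup.map (n := Fin d) (algebraMap (𝓞 k) k)).range with hΛ
  have hfi : (Λ.subgroupOf Γ).FiniteIndex := ⟨hΓ.2⟩
  obtain ⟨M, hM⟩ := IsLocalization.exist_integer_multiples_of_finite (nonZeroDivisors (𝓞 k))
    (fun x : (Γ ⧸ Λ.subgroupOf Γ) × Fin d × Fin d => (x.1.out.1.1 x.2.1 x.2.2 : k))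
  refine ⟨M, ((Γ.relIndex Λ).factorial : ℕ), nonZeroDivisors.coe_ne_zero M,
    Nat.cast_ne_zero.2 (Nat.factorial_ne_zero _), fun x y h => ?_, fun γ i l => ?_,
    fun y η h0 => ?_⟩
  · refine Subtype.ext (Subtype.ext (Matrix.ext fun i l => ?_))
    have := congrFun (congrFun (congrArg Subtype.val h) (e.symm i)) (e.symm l)
    simpa [rx] using this
  · obtain ⟨h, hh⟩ := QuotientGroup.mk_out_eq_mul (Λ.subgroupOf Γ) γ
    obtain ⟨u, hu⟩ : (h⁻¹.1.1 : Matrix.SpecialLinearGroup (Fin d) k) ∈ Λ := h⁻¹.2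
    have e1 : γ = (QuotientGroup.mk γ : Γ ⧸ Λ.subgroupOf Γ).out * h⁻¹.1 := by
      rw [hh]; simp
    have e2 : γ.1.1 = (QuotientGroup.mk γ : Γ ⧸ Λ.subgroupOf Γ).out.1.1 *
        u.1.map (algebraMap (𝓞 k) k) := by
      conv_lhs => rw [e1]
      change _ * (h⁻¹.1.1).1 = _
      rw [← hu]; rfl
    choose z hz using fun m => hM (QuotientGroup.mk γ, e i, m)
    refine ⟨∑ m, z m * u.1 m (e l), ?_⟩
    change _ = _ * γ.1.1 (e i) (e l)
    rw [e2, Matrix.mul_apply, map_sum, Finset.mul_sum]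
    refine Finset.sum_congr rfl fun m _ => ?_
    rw [map_mul, hz, Algebra.smul_def, mul_assoc]
    rfl
  · have hdot : (η ∘ e.symm) ⬝ᵥ (y ∘ e.symm) = 0 := by
      rw [← h0]; exact Equiv.sum_comp e.symm fun i => η i * y i
    let u : Matrix.SpecialLinearGroup (Fin d) (𝓞 k) :=
      ⟨1 + vecMulVec (y ∘ e.symm) (η ∘ e.symm), by
        rw [vecMulVec_eq Unit, det_one_add_replicateCol_mul_replicateRow, hdot, add_zero]⟩
    have h1 := Subgroup.pow_mem_of_relIndex_ne_zero_of_dvd hΓ.1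
      (a := Matrix.SpecialLinearGroup.map (algebraMap (𝓞 k) k) u) ⟨u, rfl⟩
      (n := (Γ.relIndex Λ).factorial) fun m hm hm' => Nat.dvd_factorial hm hm'
    rw [← map_pow] at h1
    refine ⟨⟨_, h1.1⟩, ?_⟩
    change ((u ^ (Γ.relIndex Λ).factorial).1.map (algebraMap (𝓞 k) k)).submatrix e e = _
    rw [Matrix.SpecialLinearGroup.coe_pow]
    change (((1 + vecMulVec (y ∘ e.symm) (η ∘ e.symm)) ^ _).map _).submatrix e e = _
    rw [one_add_pow_sq_zero (by rw [vecMulVec_mul_vecMulVec, hdot, zero_smul, vecMulVec_zero]),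
      ← Nat.cast_smul_eq_nsmul (𝓞 k)]
    ext i l
    by_cases hil : i = l
    · subst hil; simp [vecMulVec_apply]
    · simp [vecMulVec_apply, hil]

theorem main (k : Type) [Field k] [NumberField k] (d : ℕ) (hd : 2 ≤ d)
    (Γ : Subgroup (Matrix.SpecialLinearGroup (Fin d) k))
    (hΓ : Γ.Commensurable (Matrix.SpecialLinearGroup.map (algebraMap (𝓞 k) k)).range) :
    repZeta Γ (((d ^ 2 / 4 : ℕ) + 1 : ℝ) / ((d : ℝ) ^ 2 - 1)) = ⊤ := by
  have h1 : (d - d / 2) + d / 2 = d := by omega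
  obtain ⟨M, μ, hM, hμ, hG⟩ := exists_glob (a := d - d / 2) (b := d / 2)
    (finSumFinEquiv.trans (finCongr h1)) Γ hΓ
  have := zeta_top hG hM hμ (by omega) (by omega)
  have h2 : (d - d / 2) * (d / 2) = d ^ 2 / 4 := by
    obtain ⟨m, rfl | rfl⟩ := Nat.even_or_odd' d
    · rw [show 2 * m / 2 = m by omega, show 2 * m - m = m by omega,
        show (2 * m) ^ 2 = 4 * (m * m) by ring]; omega
    · rw [show (2 * m + 1) / 2 = m by omega, show 2 * m + 1 - m = m + 1 by omega,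
        show (2 * m + 1) ^ 2 = 4 * ((m + 1) * m) + 1 by ring]; omega
  rwa [h1, h2] at this

end Pool.Agent.MP_8299d6_al
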