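import Pool.Agent.MP_8299d6_al.Defs

/-! Irreducible representations containing a character of a finite index subgroup. -/

open scoped ENNReal

noncomputable section

namespace Pool.Agent.MP_8299d6_al

variable {G : Type} [Group G]

section irr
variable {V W : Type} [AddCommGroup V] [Module ℂ V] [AddCommGroup W] [Module ℂ W]

lemma irr_cases {ρ : Representation ℂ G V} (h : ρ.IsIrreducible) (U : Submodule ℂ V)
    (hU : ∀ g, ∀ v ∈ U, ρ g v ∈ U) : U = ⊥ ∨ U = ⊤ := by
  rcases h.eq_bot_or_eq_top ⟨U, fun g v hv => hU g v hv⟩ with h1 | h1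
  · exact Or.inl (congrArg Subrepresentation.toSubmodule h1)
  · exact Or.inr (congrArg Subrepresentation.toSubmodule h1)

lemma irr_of {ρ : Representation ℂ G V} [Nontrivial V]
    (h : ∀ U : Submodule ℂ V, (∀ g, ∀ v ∈ U, ρ g v ∈ U) → U = ⊥ ∨ U = ⊤) : ρ.IsIrreducible := by
  have : Nontrivial (Subrepresentation ρ) := ⟨⊥, ⊤, fun e => by
    have : (⊥ : Submodule ℂ V) = ⊤ := congrArg Subrepresentation.toSubmodule e
    exact bot_ne_top this⟩
  refine ⟨fun U => ?_⟩
  rcases h U.toSubmodule (fun g v hv => U.apply_mem_toSubmodule g hv) with h1 | h1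
  · exact Or.inl (Subrepresentation.ext h1)
  · exact Or.inr (Subrepresentation.ext h1)

lemma equiv_apply {ρ : Representation ℂ G V} {σ : Representation ℂ G W} (e : ρ.Equiv σ) (g : G)
    (v : V) : e (ρ g v) = σ g (e v) := e.toIntertwiningMap.isIntertwining _ _ g v

/-- a linear map killing the orbit of a nonzero vector is zero -/
lemma irr_orbit {ρ : Representation ℂ G V} (h : ρ.IsIrreducible) {v : V} (hv : v ≠ 0)
    (P : V →ₗ[ℂ] W) (hP : ∀ g, P (ρ g v) = 0) : P = 0 := by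
  have := irr_cases h (Submodule.span ℂ (Set.range fun g => ρ g v)) (fun g w hw => by
    refine Submodule.span_induction (p := fun w _ => ρ g w ∈
      Submodule.span ℂ (Set.range fun g => ρ g v)) ?_ (by simp) ?_ ?_ hw
    · rintro _ ⟨x, rfl⟩
      exact Submodule.subset_span ⟨g * x, by simp⟩
    · intro x y _ _ hx hy; rw [map_add]; exact add_mem hx hy
    · intro c x _ hx; rw [map_smul]; exact Submodule.smul_mem _ c hx)
  rcases this with h1 | h1
  · exfalso
    have : v ∈ Submodule.span ℂ (Set.range fun g => ρ g v) := Submodule.subset_span ⟨1, by simp⟩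
    rw [h1] at this
    exact hv this
  · refine LinearMap.ext_on h1 ?_
    rintro _ ⟨g, rfl⟩
    exact hP g

lemma fix_of_conj {ρ : Representation ℂ G V} (h : ρ.IsIrreducible) {v : V} (hv : v ≠ 0) {k : G}
    (hk : ∀ g, ρ (g⁻¹ * k * g) v = v) : ρ k = 1 := by
  have := irr_orbit h hv (ρ k - 1) fun g => by
    have h1 : ρ k (ρ g v) = ρ g (ρ (g⁻¹ * k * g) v) := by
      rw [← Module.End.mul_apply, ← Module.End.mul_apply, ← map_mul, ← map_mul]
      congr 2; group
    rw [LinearMap.sub_apply, h1, hk, Module.End.one_apply, sub_self]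
  exact sub_eq_zero.1 this

/-- data of a character of `H` trivial on `N` -/
structure IsChar (H N : Subgroup G) (χ : G → ℂ) : Prop where
  le : N ≤ H
  mul : ∀ x ∈ H, ∀ y ∈ H, χ (x * y) = χ x * χ y
  one : ∀ x ∈ N, χ x = 1

lemma exists_avg (ρ : Representation ℂ G V) {H N : Subgroup G} [N.FiniteIndex] {χ : G → ℂ}
    (hχ : IsChar H N χ) (hK : ∀ k ∈ N.normalCore, ρ k = 1) :
    ∃ (P : V →ₗ[ℂ] V) (c : ℂ), c ≠ 0 ∧ (∀ h ∈ H, P * ρ h = χ h • P) ∧ (∀ h ∈ H, ρ h * P = χ h • P) ∧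
      (∀ v, (∀ h ∈ H, ρ h v = χ h • v) → P v = c • v) ∧
      (∀ l : V →ₗ[ℂ] ℂ, (∀ h ∈ H, ∀ v, l (ρ h v) = χ h * l v) → ∀ v, l (P v) = c * l v) := by
  classical
  set K := N.normalCore with hKdef
  have hKN : K ≤ N := N.normalCore_le
  have : Fintype (G ⧸ K) := Fintype.ofFinite _
  let Φ : G → Module.End ℂ V := fun g => if g ∈ H then χ g⁻¹ • ρ g else 0
  have hΦ : ∀ g, ∀ k ∈ K, Φ (g * k) = Φ g := by
    intro g k hk
    have hkH : k ∈ H := hχ.le (hKN hk)
    simp only [Φ, mul_mem_cancel_right hkH]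
    split_ifs with hg
    · rw [mul_inv_rev, hχ.mul _ (inv_mem hkH) _ (inv_mem hg), hχ.one _ (inv_mem (hKN hk)), one_mul,
        map_mul, hK k hk, mul_one]
    · rfl
  have hΦ' : ∀ g : G, Φ (QuotientGroup.mk g : G ⧸ K).out = Φ g := by
    intro g
    obtain ⟨k, hk⟩ := QuotientGroup.mk_out_eq_mul K g
    rw [hk]; exact hΦ g k k.2
  have hinv : ∀ h ∈ H, χ h * χ h⁻¹ = 1 := fun h hh => by
    rw [← hχ.mul _ hh _ (inv_mem hh), mul_inv_cancel]; exact hχ.one _ (one_mem _)
  refine ⟨∑ c : G ⧸ K, Φ c.out, ((Finset.univ.filter fun c : G ⧸ K => c.out ∈ H).card : ℂ), ?_,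
    fun h hh => ?_, fun h hh => ?_, fun v hv => ?_, fun l hl v => ?_⟩
  · rw [Nat.cast_ne_zero, ← Nat.pos_iff_ne_zero, Finset.card_pos]
    refine ⟨QuotientGroup.mk 1, Finset.mem_filter.2 ⟨Finset.mem_univ _, ?_⟩⟩
    obtain ⟨k, hk⟩ := QuotientGroup.mk_out_eq_mul K 1
    rw [hk, one_mul]; exact hχ.le (hKN k.2)
  · rw [Finset.sum_mul, Finset.smul_sum,
      ← Equiv.sum_comp (Equiv.mulRight (QuotientGroup.mk h : G ⧸ K)) (fun c => χ h • Φ c.out)]
    refine Finset.sum_congr rfl fun c _ => ?_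
    have : c * (QuotientGroup.mk h : G ⧸ K) = QuotientGroup.mk (c.out * h) := by
      rw [QuotientGroup.mk_mul, QuotientGroup.out_eq']
    simp only [Equiv.coe_mulRight]
    rw [this, hΦ']
    simp only [Φ, mul_mem_cancel_right hh]
    split_ifs with hg
    · rw [mul_inv_rev, hχ.mul _ (inv_mem hh) _ (inv_mem hg), smul_smul, ← mul_assoc, hinv h hh,
        one_mul, map_mul, smul_mul_assoc]
    · simp
  · rw [Finset.mul_sum, Finset.smul_sum,
      ← Equiv.sum_comp (Equiv.mulLeft (QuotientGroup.mk h : G ⧸ K)) (fun c => χ h • Φ c.out)]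
    refine Finset.sum_congr rfl fun c _ => ?_
    have : (QuotientGroup.mk h : G ⧸ K) * c = QuotientGroup.mk (h * c.out) := by
      rw [QuotientGroup.mk_mul, QuotientGroup.out_eq']
    simp only [Equiv.coe_mulLeft]
    rw [this, hΦ']
    simp only [Φ, mul_mem_cancel_left hh]
    split_ifs with hg
    · rw [mul_inv_rev, hχ.mul _ (inv_mem hg) _ (inv_mem hh), smul_smul, mul_comm (χ c.out⁻¹),
        ← mul_assoc, hinv h hh, one_mul, map_mul, mul_smul_comm]
    · simp
  · rw [LinearMap.sum_apply, Finset.card_filter, Nat.cast_sum, Finset.sum_smul]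
    refine Finset.sum_congr rfl fun c _ => ?_
    simp only [Φ]
    split_ifs with hg
    · rw [LinearMap.smul_apply, hv _ hg, smul_smul, mul_comm, hinv _ hg]; simp
    · simp
  · rw [LinearMap.sum_apply, map_sum, Finset.card_filter, Nat.cast_sum, Finset.sum_mul]
    refine Finset.sum_congr rfl fun c _ => ?_
    simp only [Φ]
    split_ifs with hg
    · rw [LinearMap.smul_apply, map_smul, hl _ hg, smul_eq_mul, ← mul_assoc, mul_comm (χ _⁻¹),
        hinv _ hg]; simp
    · simp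

lemma core_triv {ρ : Representation ℂ G V} (hρ : ρ.IsIrreducible) {H N : Subgroup G} {χ : G → ℂ}
    (hχ : IsChar H N χ) {v : V} (hv : v ≠ 0) (he : ∀ h ∈ H, ρ h v = χ h • v) :
    ∀ k ∈ N.normalCore, ρ k = 1 := fun k hk => fix_of_conj hρ hv fun g => by
  have h1 : g⁻¹ * k * g ∈ N := by simpa using hk g⁻¹
  rw [he _ (hχ.le h1), hχ.one _ h1, one_smul]

/-- two characters occurring in the same irreducible representation are intertwined -/
lemma intertwine {ρ : Representation ℂ G V} (hρ : ρ.IsIrreducible) {H N : Subgroup G}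
    [N.FiniteIndex] {χ χ' : G → ℂ} (hχ' : IsChar H N χ') {v v' : V} (hv : v ≠ 0) (hv' : v' ≠ 0)
    (he : ∀ h ∈ H, ρ h v = χ h • v) (he' : ∀ h ∈ H, ρ h v' = χ' h • v') :
    ∃ g : G, ∀ h ∈ H, g * h * g⁻¹ ∈ H → χ h = χ' (g * h * g⁻¹) := by
  obtain ⟨P, c, hc, h1, -, h3, -⟩ := exists_avg ρ hχ' (core_triv hρ hχ' hv' he')
  have hP : P ≠ 0 := by
    intro e
    have := h3 v' he'
    rw [e, LinearMap.zero_apply] at this
    exact (smul_ne_zero hc hv') this.symm
  obtain ⟨g, hg⟩ : ∃ g, P (ρ g v) ≠ 0 := by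
    by_contra hcon
    push Not at hcon
    exact hP (irr_orbit hρ hv P hcon)
  refine ⟨g, fun h hh hh' => ?_⟩
  have e1 : P (ρ (g * h * g⁻¹) (ρ g v)) = χ' (g * h * g⁻¹) • P (ρ g v) := by
    rw [← Module.End.mul_apply, h1 _ hh', LinearMap.smul_apply]
  have e2 : ρ (g * h * g⁻¹) (ρ g v) = ρ g (ρ h v) := by
    rw [← Module.End.mul_apply, ← Module.End.mul_apply, ← map_mul, ← map_mul]
    congr 2; group
  rw [e2, he h hh, map_smul, map_smul] at e1
  exact smul_left_injective ℂ hg e1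

/-- transport of an irreducible representation to coordinates -/
lemma exists_coord (ρ : Representation ℂ G V) (hρ : ρ.IsIrreducible) [FiniteDimensional ℂ V]
    {v : V} (hv : v ≠ 0) :
    ∃ n : ℕ, n + 1 = Module.finrank ℂ V ∧ ∃ σ : IrrRep G (n + 1), Nonempty (ρ.Equiv σ.1) := by
  have : Nontrivial V := nontrivial_of_ne v 0 hv
  obtain ⟨n, hn⟩ : ∃ n, n + 1 = Module.finrank ℂ V :=
    ⟨Module.finrank ℂ V - 1, Nat.succ_pred_eq_of_pos Module.finrank_pos⟩
  let e : V ≃ₗ[ℂ] (Fin (n + 1) → ℂ) := LinearEquiv.ofFinrankEq _ _ (by simp [hn])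
  let σ : Representation ℂ G (Fin (n + 1) → ℂ) := (e.conjRingEquiv.toMonoidHom).comp ρ
  have hσ : ∀ g w, σ g w = e (ρ g (e.symm w)) := fun g w => rfl
  refine ⟨n, hn, ⟨σ, irr_of fun U hU => ?_⟩, ⟨Representation.Equiv.mk e fun g => ?_⟩⟩
  · rcases irr_cases hρ (U.comap e.toLinearMap) (fun g w hw => by
      have := hU g _ hw
      simpa [hσ] using this) with h1 | h1
    · left
      rw [eq_bot_iff]
      intro w hw
      have : e.symm w ∈ U.comap e.toLinearMap := by simpa using hw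
      rw [h1] at this
      simpa using this
    · right
      rw [eq_top_iff]
      intro w _
      have : e.symm w ∈ U.comap e.toLinearMap := by rw [h1]; trivial
      simpa using this
  · ext1 w
    simp [hσ]

end irr

/-- the space of the induced representation -/
def indSp (H : Subgroup G) (χ : G → ℂ) : Submodule ℂ (G → ℂ) where
  carrier := {f | ∀ h ∈ H, ∀ x, f (h * x) = χ h * f x}
  add_mem' hf hg h hh x := by simp [hf h hh x, hg h hh x, mul_add]
  zero_mem' h hh x := by simp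
  smul_mem' c f hf h hh x := by simp [hf h hh x, mul_left_comm]

/-- right translation -/
def rt (G : Type) [Group G] : Representation ℂ G (G → ℂ) where
  toFun g := LinearMap.funLeft ℂ ℂ (fun x => x * g)
  map_one' := by ext; simp
  map_mul' g h := by ext; simp [LinearMap.funLeft, mul_assoc]

lemma rt_apply (g : G) (f : G → ℂ) (x : G) : rt G g f x = f (x * g) := rfl

theorem exists_irr {H N : Subgroup G} [N.FiniteIndex] {χ : G → ℂ} (hχ : IsChar H N χ) :
    ∃ n : ℕ, n + 1 ≤ H.index ∧ ∃ σ : IrrRep G (n + 1), ∃ v, v ≠ 0 ∧ ∀ h ∈ H, σ.1 h v = χ h • v := by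
  classical
  have : H.FiniteIndex := Subgroup.finiteIndex_of_le hχ.le
  have : Fintype (G ⧸ H) := Fintype.ofFinite _
  let ev : indSp H χ →ₗ[ℂ] (G ⧸ H → ℂ) :=
    (LinearMap.funLeft ℂ ℂ fun c : G ⧸ H => c.out⁻¹).comp (indSp H χ).subtype
  have hev : Function.Injective ev := by
    rw [injective_iff_map_eq_zero]
    intro f hf
    ext x
    obtain ⟨k, hk⟩ := QuotientGroup.mk_out_eq_mul H x⁻¹
    have h1 : f.1 ((QuotientGroup.mk x⁻¹ : G ⧸ H).out⁻¹) = 0 := congrFun hf _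
    have h2 : x = k * (QuotientGroup.mk x⁻¹ : G ⧸ H).out⁻¹ := by rw [hk]; group
    rw [h2, f.2 k k.2, h1]; simp
  have hfd : FiniteDimensional ℂ (indSp H χ) := Module.Finite.of_injective ev hev
  have hdim : Module.finrank ℂ (indSp H χ) ≤ H.index := by
    refine (LinearMap.finrank_le_finrank_of_injective hev).trans ?_
    rw [Module.finrank_fintype_fun_eq_card, Subgroup.index, Nat.card_eq_fintype_card]
  have hne : indSp H χ ≠ ⊥ := by
    intro e
    have : (fun x => if x ∈ H then χ x else 0) ∈ indSp H χ := fun h hh x => by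
      simp only [mul_mem_cancel_left hh]
      split_ifs with hx
      · exact hχ.mul _ hh _ hx
      · simp
    rw [e, Submodule.mem_bot] at this
    have h1 := congrFun this 1
    simp [one_mem, hχ.one 1 (one_mem _)] at h1
  let Q : ℕ → Prop := fun m => ∃ U : Submodule ℂ (G → ℂ), U ≤ indSp H χ ∧ U ≠ ⊥ ∧
    (∀ g, ∀ f ∈ U, rt G g f ∈ U) ∧ Module.finrank ℂ U = m
  have hQ : ∃ m, Q m := ⟨_, indSp H χ, le_rfl, hne, fun g f hf h hh x => by
    rw [rt_apply, rt_apply, mul_assoc]; exact hf h hh _, rfl⟩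
  obtain ⟨U, hU1, hU2, hU3, hU4⟩ := Nat.find_spec hQ
  have : FiniteDimensional ℂ U := Submodule.finiteDimensional_of_le hU1
  have : Nontrivial U := Submodule.nontrivial_iff_ne_bot.2 hU2
  let ρ : Representation ℂ G U :=
    (⟨U, fun g f hf => hU3 g f hf⟩ : Subrepresentation (rt G)).toRepresentation
  have hρ' : ∀ g (f : U) x, (ρ g f).1 x = f.1 (x * g) := fun g f x => rfl
  have hρ : ρ.IsIrreducible := irr_of fun U' hU' => by
    by_cases h0 : U' = ⊥
    · exact Or.inl h0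
    · right
      have h1 : Q (Module.finrank ℂ (U'.map U.subtype)) := by
        refine ⟨U'.map U.subtype, (Submodule.map_subtype_le _ _).trans hU1, ?_, ?_, rfl⟩
        · intro e
          refine h0 (Submodule.map_injective_of_injective U.injective_subtype ?_)
          rw [e, Submodule.map_bot]
        · rintro g _ ⟨f, hf, rfl⟩
          exact ⟨ρ g f, hU' g f hf, rfl⟩
      have h2 := Nat.find_min' hQ h1
      rw [← hU4, Submodule.finrank_map_subtype_eq] at h2
      exact Submodule.eq_top_of_finrank_eq (le_antisymm (Submodule.finrank_le _) h2)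
  have hK : ∀ k ∈ N.normalCore, ρ k = 1 := fun k hk => by
    ext f x
    have h1 : x * k * x⁻¹ ∈ N := hk x
    have h2 := hU1 f.2 _ (hχ.le h1) x
    rw [hχ.one _ h1, one_mul, inv_mul_cancel_right] at h2
    exact h2
  obtain ⟨P, c, hc, -, h2, -, h4⟩ := exists_avg ρ hχ hK
  let l : U →ₗ[ℂ] ℂ := (LinearMap.proj 1).comp U.subtype
  obtain ⟨f, hf⟩ := exists_ne (0 : U)
  obtain ⟨x, hx⟩ : ∃ x, f.1 x ≠ 0 := by
    by_contra hcon
    push Not at hcon
    exact hf (Subtype.ext (funext hcon))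
  have h5 := h4 l (fun h hh w => by
    have := hU1 w.2 h hh 1
    rw [mul_one] at this
    change w.1 (1 * h) = χ h * w.1 1
    rw [one_mul, this]) (ρ x f)
  have h6 : l (ρ x f) = f.1 x := by
    change f.1 (1 * x) = _
    rw [one_mul]
  have hv : P (ρ x f) ≠ 0 := by
    intro e
    rw [e, map_zero, h6] at h5
    exact (mul_ne_zero hc hx) h5.symm
  obtain ⟨n, hn, σ, ⟨e⟩⟩ := exists_coord ρ hρ hv
  refine ⟨n, ?_, σ, e (P (ρ x f)), ?_, fun h hh => ?_⟩
  · rw [hn]; exact (Submodule.finrank_mono hU1).trans hdim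
  · exact fun e0 => hv (e.toLinearEquiv.map_eq_zero_iff.1 e0)
  · have h7 : ρ h (P (ρ x f)) = χ h • P (ρ x f) := by
      rw [← Module.End.mul_apply, h2 h hh, LinearMap.smul_apply]
    rw [← equiv_apply e, h7]
    exact map_smul e.toLinearEquiv _ _

/-- all isomorphism classes -/
abbrev Cls (G : Type) [Group G] : Type := Σ n : ℕ, Quotient (isoSetoid G (n + 1))

lemma repZeta_eq (s : ℝ) : repZeta G s = ∑' c : Cls G, ((c.1 + 1 : ℕ) : ℝ≥0∞) ^ (-s) := by
  rw [ENNReal.tsum_sigma']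
  refine tsum_congr fun n => ?_
  simp only [ENNReal.tsum_const, irrCount]

lemma equiv_of_cls_eq {n n' : ℕ} {ρ : IrrRep G (n + 1)} {σ : IrrRep G (n' + 1)}
    (h : (⟨n, Quotient.mk _ ρ⟩ : Cls G) = ⟨n', Quotient.mk _ σ⟩) : Nonempty (ρ.1.Equiv σ.1) := by
  obtain ⟨rfl, h⟩ := Sigma.mk.inj_iff.1 h
  exact Quotient.exact (eq_of_heq h)

theorem repZeta_ge {J : Type} (n N M : J → ℕ) (ρ : ∀ j, IrrRep G (n j + 1))
    (hN : ∀ j, n j + 1 ≤ N j) (hM0 : ∀ j, M j ≠ 0)
    (hM : ∀ j j', Nonempty ((ρ j).1.Equiv (ρ j').1) → M j = M j')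
    (hc : ∀ j, Set.encard {j' | Nonempty ((ρ j').1.Equiv (ρ j).1)} ≤ M j) {s : ℝ} (hs : 0 ≤ s) :
    ∑' j, (M j : ℝ≥0∞)⁻¹ * (N j : ℝ≥0∞) ^ (-s) ≤ repZeta G s := by
  let κ : J → Cls G := fun j => ⟨n j, Quotient.mk _ (ρ j)⟩
  rw [repZeta_eq, ← ENNReal.tsum_fiberwise _ κ]
  refine ENNReal.tsum_le_tsum fun c => ?_
  rcases (κ ⁻¹' {c}).eq_empty_or_nonempty with h | ⟨j0, hj0⟩
  · rw [h]; simp
  · have hj0' : κ j0 = c := hj0
    subst hj0'
    have h1 : ∀ j : κ ⁻¹' {κ j0}, (M j : ℝ≥0∞)⁻¹ * (N j : ℝ≥0∞) ^ (-s) ≤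
        (M j0 : ℝ≥0∞)⁻¹ * (((κ j0).1 + 1 : ℕ) : ℝ≥0∞) ^ (-s) := fun j => by
      have hj : κ j = κ j0 := j.2
      have hj1 : (κ j0).1 = n j := (congrArg Sigma.fst hj).symm
      rw [hM _ _ (equiv_of_cls_eq hj), hj1]
      gcongr _ * ?_
      rw [ENNReal.rpow_neg, ENNReal.rpow_neg]
      refine ENNReal.inv_le_inv.2 (ENNReal.rpow_le_rpow ?_ hs)
      exact_mod_cast hN j
    refine (ENNReal.tsum_le_tsum h1).trans ?_
    rw [ENNReal.tsum_const, ← mul_assoc]
    refine mul_le_of_le_one_left' ?_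
    have h2 : ENat.card (κ ⁻¹' {κ j0}) ≤ M j0 :=
      (Set.encard_le_encard fun j hj => equiv_of_cls_eq hj).trans (hc j0)
    have h3 : ((ENat.card (κ ⁻¹' {κ j0}) : ℕ∞) : ℝ≥0∞) ≤ M j0 := by
      exact_mod_cast ENat.toENNReal_le.2 h2
    calc _ ≤ (M j0 : ℝ≥0∞) * (M j0 : ℝ≥0∞)⁻¹ := by gcongr
      _ = 1 := ENNReal.mul_inv_cancel (by exact_mod_cast hM0 j0) (by simp)

lemma le_abscissa {s0 : ℝ} (h : repZeta G s0 = ⊤) : (s0 : EReal) ≤ abscissa G := by
  refine le_sInf ?_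
  rintro _ ⟨s, hs, rfl⟩
  refine EReal.coe_le_coe_iff.2 (not_lt.1 fun hlt => ?_)
  have : repZeta G s0 ≤ repZeta G s := by
    refine ENNReal.tsum_le_tsum fun n => ?_
    gcongr
    · exact_mod_cast Nat.le_add_left 1 n
  rw [h, top_le_iff] at this
  exact (ne_of_lt hs) this

lemma index_le_of_fun {X : Type} [Finite X] (H : Subgroup G) (t : G → X)
    (h : ∀ g g', t g = t g' → g⁻¹ * g' ∈ H) : Finite (G ⧸ H) ∧ H.index ≤ Nat.card X := by
  have hi : Function.Injective fun c : G ⧸ H => t c.out := fun c c' e => by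
    rw [← QuotientGroup.out_eq' c, ← QuotientGroup.out_eq' c']
    exact QuotientGroup.eq.2 (h _ _ e)
  exact ⟨Finite.of_injective _ hi, Nat.card_le_card_of_injective _ hi⟩

end Pool.Agent.MP_8299d6_al
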